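import Pool.Agent.TSQ.Near
import Pool.Agent.CSG.SFrame
import Pool.Agent.UNQ.Tube

/-!
# TSQ/Surg: from `QD` to `Surg`

`surg_of_qd`: `D : QD κ ε k e X`, `e = ±1`, gives `Surg (sh (-e lam) * κ) X`.
-/

open scoped Manifold ContDiff Topology
open Complex (I)
open Set Filter

namespace Pool.Agent.TSQ
open Pool.Agent.CSG Pool.Agent.TS

/-- the reflection `(z0, z1, z2) ↦ (z0, z2, z1)` -/
noncomputable def sw12 : E3 ≃ₗᵢ[ℝ] E3 :=
  LinearIsometryEquiv.piLpCongrLeft 2 ℝ ℝ (Equiv.swap (1 : Fin 3) 2)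

theorem sw12_apply (z : E3) : sw12 z = pt (z 0) (z 2) (z 1) := by
  ext i
  unfold sw12
  rw [LinearIsometryEquiv.piLpCongrLeft_apply]
  fin_cases i <;> simp [Equiv.piCongrLeft', pt, Equiv.swap_apply_def]

theorem sw12_symm : sw12.symm = sw12 := by
  ext z i
  have h : sw12 (sw12 z) = z := by
    rw [sw12_apply, sw12_apply]
    ext i; fin_cases i <;> simp
  have h2 : sw12.symm z = sw12 z := by
    rw [LinearIsometryEquiv.symm_apply_eq]
    exact h.symm
  rw [h2]

/-- the antipode in the disc -/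
theorem neg_ld (v : ℂ) : IsLocalDiffeomorphAt 𝓘(ℝ, ℂ) 𝓘(ℝ, ℂ) ∞ (fun v : ℂ => -v) v :=
  ld_of_perm (f := Equiv.neg ℂ) contDiff_neg contDiff_neg v

/-- `(Y, v) ↦ (sw12 Y, -v)` -/
noncomputable def jsig : Diffeomorph ((𝓡 2).prod 𝓘(ℝ, ℂ)) ((𝓡 2).prod 𝓘(ℝ, ℂ)) (S2 × ℂ) (S2 × ℂ) ∞ where
  toFun q := (sphMap sw12 q.1, -q.2)
  invFun q := (sphMap sw12.symm q.1, -q.2)
  left_inv q := by
    ext1
    · apply Subtype.ext
      simp [sphMap]
    · simp
  right_inv q := by
    ext1
    · apply Subtype.ext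
      simp [sphMap]
    · simp
  contMDiff_toFun := by
    have : ContMDiff 𝓘(ℝ, ℂ) 𝓘(ℝ, ℂ) ∞ fun z : ℂ => -z := contDiff_neg.contMDiff
    exact ((sphMap_smooth sw12).comp contMDiff_fst).prodMk (this.comp contMDiff_snd)
  contMDiff_invFun := by
    have : ContMDiff 𝓘(ℝ, ℂ) 𝓘(ℝ, ℂ) ∞ fun z : ℂ => -z := contDiff_neg.contMDiff
    exact ((sphMap_smooth sw12.symm).comp contMDiff_fst).prodMk (this.comp contMDiff_snd)

theorem sphMap_inj (R : E3 ≃ₗᵢ[ℝ] E3) {y y' : S2} (h : sphMap R y = sphMap R y') : y = y' := by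
  have := congrArg (fun y : S2 => (y : E3)) h
  simp only [sphMap] at this
  exact Subtype.ext (R.injective this)

theorem lam_sh_mono (e : ℤ) : Mono !![1, 0, 0; -e, 1, 0; 0, 0, 1] (sh (fun y _ => -(e : ℝ) * lam y)) := by
  apply sh_mono
  · exact contDiff_const.mul (lam_smooth.comp contDiff_fst)
  · intro n y a b
    rw [lam_add_int]
    push_cast
    ring
  · rw [lam_zero (by norm_num) (by norm_num)]
    ring

/-- the framing of the result -/
noncomputable def fP (ε : ℝ) (hε : 0 < ε) (k : ℤ) (t : ℝ) : E3 ≃L[ℝ] E3 :=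
  (UNQ.rotE (gfr (-k) t) (by rw [← norm_ne_zero_iff, gfr_norm]; norm_num)).trans
    (UNQ.scl ε hε.ne')

theorem fP_apply (ε : ℝ) (hε : 0 < ε) (k : ℤ) (t : ℝ) (z : E3) :
    fP ε hε k t z = ε • cmul (gfr (-k) t) z := rfl

theorem cmul_norm {c : ℂ} (hc : ‖c‖ = 1) (z : E3) : ‖cmul c z‖ = ‖z‖ := by
  rw [EuclideanSpace.norm_eq, EuclideanSpace.norm_eq]
  congr 1
  simp only [Fin.sum_univ_three, cmul, pt_zero', pt_one', pt_two', Real.norm_eq_abs, sq_abs]
  have h1 : (c * (z 1 + z 2 * I)).re ^ 2 + (c * (z 1 + z 2 * I)).im ^ 2 = z 1 ^ 2 + z 2 ^ 2 := by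
    have h2 : ‖c * (z 1 + z 2 * I)‖ ^ 2 = z 1 ^ 2 + z 2 ^ 2 := by
      rw [norm_mul, hc, one_mul, Complex.sq_norm, Complex.normSq_add_mul_I]
    rw [← h2, Complex.sq_norm, Complex.normSq_apply]
    ring
  linarith

section
variable {X : Type*} [TopologicalSpace X] [ChartedSpace E4 X] {κ : Equiv.Perm E3}
  {ε δ : ℝ} {k e : ℤ}

theorem QG_B_side (D : QD κ ε k e X) {x : E3} (h : Int.fract (x 0) ≤ 3 / 10 ∨ 7 / 10 ≤ Int.fract (x 0))
    (t : ℝ) : QG D (x, t) = D.B (x, t) := by
  have hnp : NP (x 0) t := by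
    rintro ⟨-, h2⟩
    rw [h2] at h
    rcases h with h | h <;> norm_num at h
  rw [QG_np D hnp]
  unfold tw
  rw [ang_side h t, mul_zero, add_zero, pt_eta]

theorem fract_small {y : ℝ} (h : |y| ≤ 3 / 10) : Int.fract y ≤ 3 / 10 ∨ 7 / 10 ≤ Int.fract y := by
  rw [abs_le] at h
  rcases le_or_gt 0 y with h1 | h1
  · left
    rw [Int.fract_eq_self.2 ⟨h1, by linarith⟩]
    linarith
  · right
    have : ⌊y⌋ = -1 := Int.floor_eq_iff.2 ⟨by push_cast; linarith, by push_cast; linarith⟩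
    rw [Int.fract, this]
    push_cast; linarith

theorem NP_add {y t : ℝ} (m : ℤ) : NP (y + m) t ↔ NP y t := by
  unfold NP
  rw [Int.fract_add_intCast]

theorem tw_add (e : ℤ) (x : E3) (t : ℝ) (m : Fin 3 → ℤ) : tw e (x + vec m) t = tw e x t + vec m := by
  have h0 : (x + vec m) 0 = x 0 + m 0 := rfl
  have h1 : (x + vec m) 1 = x 1 + m 1 := rfl
  have h2 : (x + vec m) 2 = x 2 + m 2 := rfl
  unfold tw
  rw [h0, h1, h2, FL_per]
  ext i; fin_cases i <;> simp [vec, pt]
  ring

theorem tw_inj_vec {e : ℤ} {x y : E3} {t : ℝ} {m : Fin 3 → ℤ}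
    (h : tw e y t = tw e x t + vec m) : y = x + vec m := by
  have h0 : y 0 = x 0 + m 0 := by
    have := congrArg (fun z : E3 => z 0) h
    simpa [vec] using this
  have h1 : y 1 + e * ang (FL (y 0) t) = x 1 + e * ang (FL (x 0) t) + m 1 := by
    have := congrArg (fun z : E3 => z 1) h
    simpa [vec] using this
  have h2 : y 2 = x 2 + m 2 := by
    have := congrArg (fun z : E3 => z 2) h
    simpa [vec] using this
  rw [h0, FL_per] at h1
  ext i; fin_cases i
  · exact h0
  · show y 1 = x 1 + m 1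
    linarith
  · exact h2

/-- The twist of the monodromy. -/
theorem surg_of_qd (D : QD κ ε k e X) (he : e = 1 ∨ e = -1) (hε : 0 < ε) (hε' : ε ≤ 1 / 1000)
    (hκ : AxMono κ δ) (hεδ : ε < δ) :
    ∃ S : Surg (sh (fun y _ => -(e : ℝ) * lam y) * κ) X,
      ∀ t z, S.P t z = ε • cmul (gfr (-k) t) z := by
  obtain ⟨A, hA⟩ := hκ.mono
  have hφ := (lam_sh_mono e).mul hA
  have Pn : ∀ t z, ‖fP ε hε k t z‖ = ε * ‖z‖ := by
    intro t z
    rw [fP_apply, norm_smul, cmul_norm (gfr_norm _ _), Real.norm_of_nonneg hε.le]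
  have Pav : ∀ t z, z ≠ 0 → ‖z‖ < 1 → ¬ IsLat (fP ε hε k t z) := by
    intro t z hz hz1
    apply not_isLat_of_norm
    · rw [← norm_ne_zero_iff, Pn]
      have := norm_pos_iff.2 hz
      positivity
    · rw [Pn]
      have := norm_nonneg z
      nlinarith
  have hOT : ∀ (x : E3) (m : Fin 3 → ℤ) (t : ℝ), OnT (x + vec m) t ↔ OnT x t := by
    intro x m t
    rw [← not_iff_not, ← np_iff, ← np_iff]
    exact NP_add (m 0)
  refine Exists.elim (surg_of_period (X := X) hφ (QG D)
    (fun q => D.jK (sphMap sw12 q.1, -q.2)) (fP ε hε k) ?_ ?_ ?_ ?_ ?_ ?_ ?_ ?_ ?_ ?_ ?_ ?_)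
    (fun S hS => ⟨S, fun t z => by rw [hS.1, fP_apply]⟩)
  · -- smooth
    show ContDiff ℝ ∞ fun q : ℝ × E3 => ε • cmul (gfr (-k) q.1) q.2
    have h0 : ContDiff ℝ ∞ fun q : ℝ × E3 => cmul (gfr (-k) q.1) q.2 :=
      UNQ.contDiff_cmul ((gfr_smooth _).comp contDiff_fst) contDiff_snd
    exact h0.const_smul ε
  · -- P_mon
    intro t z h1 h2 hz
    set w := fP ε hε k (t + 1) z with hw
    have hwn : ‖w‖ < ε := by
      rw [hw, Pn]
      nlinarith [norm_nonneg z]
    have h3 : fP ε hε k t z = w := by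
      rw [hw, fP_apply, fP_apply, gfr_add_one]
    rw [h3, Equiv.Perm.mul_apply]
    have c0 := coord_le_norm w 0
    have c1 := coord_le_norm w 1
    have c2 := coord_le_norm w 2
    rw [hκ.axis w (by linarith) (by linarith)]
    rw [abs_le] at c0
    show pt (w 0) (w 1 + -(e : ℝ) * lam (w 0)) (w 2) = w
    rw [lam_zero (by linarith) (by linarith), mul_zero, add_zero, pt_eta]
  · intro t z _ _ hz hz1
    exact Pav t z hz hz1
  · -- G_loc
    intro x t hx h1 h2
    exact QG_loc D he hε hε' hx h1 (by linarith)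
  · -- G_per
    intro x t m hx h1 h2
    by_cases hnp : NP (x 0) t
    · have hnp' : NP ((x + vec m) 0) t := (NP_add (m 0)).2 hnp
      rw [QG_np D hnp, QG_np D hnp', tw_add]
      apply D.B_per _ _ _ h1 (by linarith)
      · rwa [isLat_tw]
      · rw [onT_tw]; exact (np_iff x t).1 hnp
    · have hnp' : ¬ NP ((x + vec m) 0) t := fun h => hnp ((NP_add (m 0)).1 h)
      rw [QG_not D hnp, QG_not D hnp']
      have := D.jT_per (1 / 4 - e * x 1) (x 2) 0 (-(e * m 1)) (m 2)
      rw [← this]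
      congr 3
      · show 1 / 4 - e * (x 1 + m 1) = _
        push_cast; ring
  · -- G_mon
    intro x t hx h1 h2
    set w := κ x with hw
    have hwl : ¬ IsLat w := by rw [hw, hA.isLat]; exact hx
    have hφx : (sh (fun y _ => -(e : ℝ) * lam y) * κ) x =
        pt (w 0) (w 1 + -(e : ℝ) * lam (w 0)) (w 2) := rfl
    have hφl : ¬ IsLat ((sh (fun y _ => -(e : ℝ) * lam y) * κ) x) := by
      rw [hφ.isLat]; exact hx
    have hn1 : NP (((sh (fun y _ => -(e : ℝ) * lam y) * κ) x) 0) t := by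
      rintro ⟨h3, -⟩; linarith
    have hn2 : NP (x 0) (t + 1) := by
      rintro ⟨h3, -⟩; linarith
    have hF : FL (((sh (fun y _ => -(e : ℝ) * lam y) * κ) x) 0) t = (1 : ℝ) * ex (lam (w 0)) := by
      rw [FL_lo (by linarith), hφx, pt_zero']
      simp [ex]
    have h4 := (QG_branch D h1 (by linarith) hφl hn1 one_pos hF).1
    rw [h4, hφx, pt_zero', pt_one', pt_two']
    have e1 : w 1 + -(e : ℝ) * lam (w 0) + e * lam (w 0) = w 1 := by ring
    rw [e1, pt_eta, QG_np D hn2]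
    unfold tw
    rw [FL_hi (by linarith), ang, Complex.arg_one, zero_div, mul_zero, add_zero, pt_eta, hw]
    exact D.B_mon x t h1 (by linarith) hx
  · -- G_inj
    intro x y s t hx hy hs hs1 ht ht1 h
    by_cases h1 : NP (x 0) s
    · by_cases h2 : NP (y 0) t
      · rw [QG_np D h1, QG_np D h2] at h
        have h3 : ¬ IsLat (tw e x s) := by rwa [isLat_tw]
        have h4 : ¬ IsLat (tw e y t) := by rwa [isLat_tw]
        have h5 : ¬ OnT (tw e x s) s := by rw [onT_tw]; exact (np_iff x s).1 h1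
        have h6 : ¬ OnT (tw e y t) t := by rw [onT_tw]; exact (np_iff y t).1 h2
        obtain ⟨h7, m, h8⟩ := D.B_inj _ _ _ _ h3 h5 h4 h6 hs hs1 ht ht1 h
        subst h7
        exact ⟨rfl, m, tw_inj_vec h8⟩
      · exfalso
        rw [QG_np D h1, QG_not D h2] at h
        refine D.disjT _ _ (tw e x s) s (by rwa [isLat_tw]) ?_ hs hs1 h.symm
        rw [onT_tw]; exact (np_iff x s).1 h1
    · by_cases h2 : NP (y 0) t
      · exfalso
        rw [QG_not D h1, QG_np D h2] at h
        refine D.disjT _ _ (tw e y t) t (by rwa [isLat_tw]) ?_ ht ht1 h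
        rw [onT_tw]; exact (np_iff y t).1 h2
      · rw [QG_not D h1, QG_not D h2] at h
        obtain ⟨⟨a, ha⟩, ⟨b, hb⟩, -⟩ := D.jT_inj _ _ _ _ _ _ (by simp) (by simp) h
        unfold NP at h1 h2
        rw [not_not] at h1 h2
        refine ⟨by rw [h1.1, h2.1], ![⌊y 0⌋ - ⌊x 0⌋, -(e * a), b], ?_⟩
        have f1 := Int.floor_add_fract (x 0)
        have f2 := Int.floor_add_fract (y 0)
        rw [h1.2] at f1
        rw [h2.2] at f2
        have g1 : (e : ℝ) * (e * y 1) = e * (e * x 1) - e * a := by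
          have : (e : ℝ) * y 1 = e * x 1 - a := by linarith
          rw [this]; ring
        rw [← mul_assoc, ← mul_assoc, e_sq he, one_mul, one_mul] at g1
        ext i; fin_cases i
        · show y 0 = x 0 + ((⌊y 0⌋ - ⌊x 0⌋ : ℤ) : ℝ)
          push_cast
          linarith
        · show y 1 = x 1 + ((-(e * a) : ℤ) : ℝ)
          push_cast
          linarith
        · exact hb
  · -- j_loc
    intro y v hv
    have h1 : IsLocalDiffeomorphAt ((𝓡 2).prod 𝓘(ℝ, ℂ)) (𝓡 4) ∞ D.jK (sphMap sw12 y, -v) :=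
      D.jK_loc _ _ (by rwa [norm_neg])
    have h2 : IsLocalDiffeomorphAt ((𝓡 2).prod 𝓘(ℝ, ℂ)) ((𝓡 2).prod 𝓘(ℝ, ℂ)) ∞
        jsig (y, v) := jsig.isLocalDiffeomorph (y, v)
    exact IsLocalDiffeomorphAt.comp (𝓡 4) X h2 h1
  · intro y y' v v' hv hv' h
    obtain ⟨h1, h2⟩ := D.jK_inj _ _ _ _ (by rwa [norm_neg]) (by rwa [norm_neg]) h
    exact ⟨sphMap_inj _ h1, neg_injective h2⟩
  · -- glue
    intro t r y h1 h2 hr hr1
    have hg := D.glueK (sphMap sw12 y) t r h1 (by linarith) hr hr1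
    have e1 : -((r : ℂ) * Complex.exp (2 * Real.pi * t * I)) = r * ex (t - 1 / 2) := by
      have : ex (t - 1 / 2) = ex t * ex (-(1 / 2)) := by rw [← ex_add]; rfl
      rw [this, ex_neg, ex_half, map_neg, map_one]
      unfold ex
      push_cast
      ring
    show D.jK (sphMap sw12 y, -((r : ℂ) * Complex.exp (2 * Real.pi * t * I))) = _
    rw [e1, hg]
    have hY0 : ((sphMap sw12 y : S2) : E3) 0 = (y : E3) 0 := by
      show (sw12 (y : E3)) 0 = _
      rw [sw12_apply]; simp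
    have hyc : yc (sphMap sw12 y) = I * (starRingEnd ℂ) (yc y) := by
      unfold yc
      have h1 : ((sphMap sw12 y : S2) : E3) 1 = (y : E3) 2 := by
        show (sw12 (y : E3)) 1 = _
        rw [sw12_apply]; simp
      have h2 : ((sphMap sw12 y : S2) : E3) 2 = (y : E3) 1 := by
        show (sw12 (y : E3)) 2 = _
        rw [sw12_apply]; simp
      rw [h1, h2]
      apply Complex.ext <;> simp
    have hex : ex (k * thc (t - 1 / 2)) = (starRingEnd ℂ) (gfr (-k) t) := by
      have h3 : thc (t - 1 / 2) = thc (t + 1 / 2) - 1 := by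
        have := thc_add_int (t + 1 / 2) (-1)
        push_cast at this
        rw [show t - 1 / 2 = t + 1 / 2 + -1 by ring, this]
        ring
      have h4 : gfr (-k) t = ex (-(k * thc (t + 1 / 2))) := by
        unfold gfr ex
        congr 2
        push_cast
        ring
      rw [h4, ex_neg, Complex.conj_conj, h3, mul_sub, mul_one]
      apply ex_eq_iff.2
      exact ⟨k, by ring⟩
    rw [hY0, hyc, hex]
    set c := gfr (-k) t with hc
    have e2 : (ε : ℂ) * r * (starRingEnd ℂ) c * (I * (starRingEnd ℂ) (yc y)) =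
        I * (starRingEnd ℂ) ((ε * r : ℝ) * (c * yc y)) := by
      rw [map_mul, map_mul, Complex.conj_ofReal]
      push_cast
      ring
    rw [e2]
    have e3 : (pt (ε * r * (y : E3) 0) (I * (starRingEnd ℂ) ((ε * r : ℝ) * (c * yc y))).im
        (I * (starRingEnd ℂ) ((ε * r : ℝ) * (c * yc y))).re) = fP ε hε k t (r • (y : E3)) := by
      rw [fP_apply]
      have e4 : ∀ z : ℂ, (I * (starRingEnd ℂ) z).im = z.re := fun z => by simp
      have e5 : ∀ z : ℂ, (I * (starRingEnd ℂ) z).re = z.im := fun z => by simp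
      rw [e4, e5, Complex.re_ofReal_mul, Complex.im_ofReal_mul]
      have e6 : c * ((((r • (y : E3)) 1 : ℝ) : ℂ) + (((r • (y : E3)) 2 : ℝ) : ℂ) * I) =
          (r : ℝ) * (c * yc y) := by
        have g1 : (r • (y : E3)) 1 = r * (y : E3) 1 := rfl
        have g2 : (r • (y : E3)) 2 = r * (y : E3) 2 := rfl
        rw [g1, g2]
        unfold yc
        push_cast
        ring
      ext i; fin_cases i
      · show ε * r * (y : E3) 0 = ε * (r * (y : E3) 0)
        ring
      · show ε * r * (c * yc y).re = ε * (c * ((((r • (y : E3)) 1 : ℝ) : ℂ) + (((r • (y : E3)) 2 : ℝ) : ℂ) * I)).re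
        rw [e6, Complex.re_ofReal_mul]
        ring
      · show ε * r * (c * yc y).im = ε * (c * ((((r • (y : E3)) 1 : ℝ) : ℂ) + (((r • (y : E3)) 2 : ℝ) : ℂ) * I)).im
        rw [e6, Complex.im_ofReal_mul]
        ring
    rw [e3]
    symm
    apply QG_B_side
    apply fract_small
    have := coord_le_norm (fP ε hε k t (r • (y : E3))) 0
    have hy1 : ‖(y : E3)‖ = 1 := by
      have := y.2
      rwa [mem_sphere_zero_iff_norm] at this
    rw [Pn, norm_smul, hy1, Real.norm_of_nonneg hr.le] at this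
    nlinarith
  · -- disj
    intro y x t hx h1 h2
    show D.jK (sphMap sw12 y, -0) ≠ _
    rw [neg_zero]
    by_cases hnp : NP (x 0) t
    · rw [QG_np D hnp]
      apply D.disjK _ _ _ _ _ h1 h2
      · rwa [isLat_tw]
      · rw [onT_tw]; exact (np_iff x t).1 hnp
    · rw [QG_not D hnp]
      exact D.disjKT _ _ _
  · -- cover
    intro p
    rcases D.cover p with ⟨Y, hY⟩ | ⟨q, y, hq⟩ | ⟨x, t, hx, hT, h1, h2, h3⟩
    · left
      refine ⟨sphMap sw12.symm Y, ?_⟩
      show p = D.jK (sphMap sw12 (sphMap sw12.symm Y), -0)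
      rw [neg_zero, hY]
      congr 2
      apply Subtype.ext
      simp [sphMap]
    · right
      have hf : Int.fract ((1 : ℝ) / 2) = 1 / 2 := Int.fract_eq_self.2 ⟨by norm_num, by norm_num⟩
      refine ⟨pt (1 / 2) (e * (1 / 4 - q)) y, 1 / 2, ?_, by norm_num, by norm_num, ?_⟩
      · apply isLat_pt_iff'
        intro m hm
        rw [hm, Int.fract_intCast] at hf
        rw [← hf] at hm
        norm_num at hm
      · rw [QG_not D (by unfold NP; rw [not_not, pt_zero']; exact ⟨rfl, hf⟩), hq, pt_one', pt_two',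
          ← mul_assoc, e_sq he]
        congr 2
        ring
    · right
      have hnp : NP (x 0) t := (np_iff x t).2 hT
      set x' := pt (x 0) (x 1 - e * ang (FL (x 0) t)) (x 2) with hx'
      have hnp' : NP (x' 0) t := by rw [hx', pt_zero']; exact hnp
      have htw : tw e x' t = x := by
        unfold tw
        rw [hx']
        simp only [pt_zero', pt_one', pt_two', sub_add_cancel]
        exact pt_eta x
      refine ⟨x', t, ?_, h1, h2, ?_⟩
      · rw [← isLat_tw e x' t, htw]; exact hx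
      · rw [QG_np D hnp', htw]; exact h3

end

end Pool.Agent.TSQ
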