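import Pool.Agent.TSQ.PtoQ
import Pool.Agent.TSQ.Surg
import Pool.Agent.TS.AxCut
import Pool.Agent.CSG.Conv

/-!
# TSQ/ToCS: from `PD` to `CSData`
-/

open scoped Manifold ContDiff Topology
open Complex (I)
open Set Filter

namespace Pool.Agent.TSQ
open Pool.Agent.CSG Pool.Agent.TS

/-- `PD` with monodromy `κ₀` and `e = ± 1` gives Cappell-Shaneson data (assuming the local theorem).
The hypotheses on `κ₀` are those provided by `exists_isots'`. -/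
theorem cs_of_pd {X : Type*} [TopologicalSpace X] [ChartedSpace E4 X]
    (hsw : SwapStatement X) {C : Matrix (Fin 3) (Fin 3) ℤ} (hC : C.det = 1)
    {κ₀ : Equiv.Perm E3} {δ : ℝ} (hax : AxMono κ₀ δ)
    (hiso : ∀ (k : ℤ) (B : Equiv.Perm E3),
      (∀ x, B x = act (Matrix.transvection 1 0 k * C) x) →
      ∃ Ψ : Isot, B * Ψ.ψ 1 = sh (fun y _ => k * lam y) * κ₀)
    {ε : ℝ} {k e : ℤ} (D : PD κ₀ ε k e X) (he : e = 1 ∨ e = -1) (hε : 0 < ε) (hε' : ε ≤ 1 / 1000)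
    (hδ : 5 * ε < δ) : Nonempty (CSData (Matrix.transvection 1 0 (-e) * C) X) := by
  obtain ⟨Q⟩ := qd_of_pd hsw D hax hε hε' hδ
  obtain ⟨S, -⟩ := surg_of_qd Q he hε hε' hax (by linarith)
  have hdet : IsUnit (Matrix.transvection 1 0 (-e) * C).det := by
    rw [Matrix.det_mul, hC, Matrix.det_transvection_of_ne _ _ (by decide)]
    simp
  obtain ⟨B, hB, hBm⟩ := exists_actE (A := Matrix.transvection 1 0 (-e) * C) hdet
  obtain ⟨Ψ, hΨ⟩ := hiso (-e) B hB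
  obtain ⟨Ψ', hΨ'⟩ := Ψ.exists_symm
  have hfun : (fun (y : ℝ) (_ : ℝ) => ((-e : ℤ) : ℝ) * lam y) = fun y _ => -(e : ℝ) * lam y := by
    funext y _; push_cast; ring
  rw [hfun] at hΨ
  rw [← hΨ] at S
  have hm3 : Mono ((Matrix.transvection 1 0 (-e) * C) * 1) (B * Ψ.ψ 1) := hBm.mul (Ψ.mono 1)
  obtain ⟨S₄⟩ := surg_isot hm3 S Ψ'
  rw [hΨ' 1, mul_assoc, mul_inv_cancel, mul_one] at S₄
  obtain ⟨D', -⟩ := cs_of_surg hdet hB S₄
  exact ⟨D'⟩

end Pool.Agent.TSQ
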