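import Pool.Agent.TS.LSDef
import Pool.Agent.CSG.HHb

/-!
# TSQ/Fr: basic facts on `GI`, `fr` (copied from TSK/FrB, helper83)
-/

open scoped Manifold ContDiff Topology
open Complex (I)
open Set Filter

namespace Pool.Agent.TSQ
open Pool.Agent.TS
open Pool.Agent.CSG

theorem mem_GI {z : ℂ} : z ∈ GI ↔ (∃ a : ℤ, z.re = a) ∧ ∃ b : ℤ, z.im = b := by
  constructor
  · rintro ⟨a, b, h⟩
    refine ⟨⟨a, ?_⟩, ⟨b, ?_⟩⟩ <;> simp [h]
  · rintro ⟨⟨a, ha⟩, ⟨b, hb⟩⟩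
    exact ⟨a, b, by apply Complex.ext <;> simp [ha, hb]⟩

theorem GI_zero : (0 : ℂ) ∈ GI := ⟨0, 0, by simp⟩

theorem GI_add {z w : ℂ} (hz : z ∈ GI) (hw : w ∈ GI) : z + w ∈ GI := by
  obtain ⟨a, b, rfl⟩ := hz
  obtain ⟨c, d, rfl⟩ := hw
  exact ⟨a + c, b + d, by push_cast; ring⟩

theorem GI_neg {z : ℂ} (hz : z ∈ GI) : -z ∈ GI := by
  obtain ⟨a, b, rfl⟩ := hz
  exact ⟨-a, -b, by push_cast; ring⟩

theorem GI_sub {z w : ℂ} (hz : z ∈ GI) (hw : w ∈ GI) : z - w ∈ GI := by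
  rw [sub_eq_add_neg]
  exact GI_add hz (GI_neg hw)

theorem GI_mk (a b : ℤ) : (a : ℂ) + b * I ∈ GI := ⟨a, b, rfl⟩

theorem rnd_mem (z : ℂ) : rnd z ∈ GI := ⟨_, _, rfl⟩

theorem rnd_re (z : ℂ) : (rnd z).re = round z.re := by simp [rnd]
theorem rnd_im (z : ℂ) : (rnd z).im = round z.im := by simp [rnd]

theorem fr_re (z : ℂ) : (fr z).re = z.re - round z.re := by
  rw [fr, Complex.sub_re, rnd_re]
theorem fr_im (z : ℂ) : (fr z).im = z.im - round z.im := by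
  rw [fr, Complex.sub_im, rnd_im]

theorem sub_fr (z : ℂ) : z - fr z = rnd z := by rw [fr]; ring

theorem sub_fr_mem (z : ℂ) : z - fr z ∈ GI := by rw [sub_fr]; exact rnd_mem z

theorem rd_mem (x : ℝ) : -(1 / 2) ≤ x - round x ∧ x - round x < 1 / 2 := by
  rw [round_eq]
  constructor
  · have := Int.floor_le (x + 1 / 2)
    linarith
  · have := Int.lt_floor_add_one (x + 1 / 2)
    linarith

theorem fr_re_mem (z : ℂ) : -(1 / 2) ≤ (fr z).re ∧ (fr z).re < 1 / 2 := by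
  rw [fr_re]; exact rd_mem _
theorem fr_im_mem (z : ℂ) : -(1 / 2) ≤ (fr z).im ∧ (fr z).im < 1 / 2 := by
  rw [fr_im]; exact rd_mem _

theorem fr_add {z a : ℂ} (ha : a ∈ GI) : fr (z + a) = fr z := by
  obtain ⟨⟨m, hm⟩, ⟨n, hn⟩⟩ := mem_GI.1 ha
  apply Complex.ext
  · rw [fr_re, fr_re, Complex.add_re, hm, round_add_intCast]
    push_cast
    ring
  · rw [fr_im, fr_im, Complex.add_im, hn, round_add_intCast]
    push_cast
    ring

theorem fr_sub {z a : ℂ} (ha : a ∈ GI) : fr (z - a) = fr z := by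
  rw [sub_eq_add_neg]
  exact fr_add (GI_neg ha)

theorem fr_eq_zero {z : ℂ} : fr z = 0 ↔ z ∈ GI := by
  constructor
  · intro h
    have := sub_fr_mem z
    rwa [h, sub_zero] at this
  · intro h
    have := fr_add (z := 0) h
    rw [zero_add] at this
    rw [this]
    apply Complex.ext
    · rw [fr_re]; simp
    · rw [fr_im]; simp

theorem rd_self {x : ℝ} (h1 : -(1 / 2) ≤ x) (h2 : x < 1 / 2) : round x = 0 := by
  rw [round_eq, Int.floor_eq_zero_iff]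
  constructor <;> linarith

theorem fr_self {z : ℂ} (h1 : -(1 / 2) ≤ z.re) (h2 : z.re < 1 / 2) (h3 : -(1 / 2) ≤ z.im)
    (h4 : z.im < 1 / 2) : fr z = z := by
  apply Complex.ext
  · rw [fr_re, rd_self h1 h2]; simp
  · rw [fr_im, rd_self h3 h4]; simp

theorem fr_self' {z : ℂ} (h : ‖z‖ < 1 / 2) : fr z = z := by
  have h1 := Complex.abs_re_le_norm z
  have h2 := Complex.abs_im_le_norm z
  have h3 := abs_lt.1 (lt_of_le_of_lt h1 h)
  have h4 := abs_lt.1 (lt_of_le_of_lt h2 h)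
  exact fr_self h3.1.le h3.2 h4.1.le h4.2

theorem fr_fr (z : ℂ) : fr (fr z) = fr z :=
  fr_self (fr_re_mem z).1 (fr_re_mem z).2 (fr_im_mem z).1 (fr_im_mem z).2

/-- `‖fr z‖` is the distance to `GI`. -/
theorem fr_le {z g : ℂ} (hg : g ∈ GI) : ‖fr z‖ ≤ ‖z - g‖ := by
  obtain ⟨⟨m, hm⟩, ⟨n, hn⟩⟩ := mem_GI.1 hg
  have h1 : |(fr z).re| ≤ |(z - g).re| := by
    rw [fr_re, Complex.sub_re, hm]
    exact round_le _ _
  have h2 : |(fr z).im| ≤ |(z - g).im| := by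
    rw [fr_im, Complex.sub_im, hn]
    exact round_le _ _
  have h3 := sq_le_sq.2 h1
  have h4 := sq_le_sq.2 h2
  rw [← sq_le_sq₀ (norm_nonneg _) (norm_nonneg _), Complex.sq_norm, Complex.sq_norm,
    Complex.normSq_apply, Complex.normSq_apply]
  nlinarith

theorem fr_lip (z w : ℂ) : ‖fr z‖ ≤ ‖z - w‖ + ‖fr w‖ := by
  have h1 := fr_le (z := z) (sub_fr_mem w)
  have h2 : z - (w - fr w) = (z - w) + fr w := by ring
  rw [h2] at h1
  exact h1.trans (norm_add_le _ _)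

theorem fr_continuous : Continuous fun z : ℂ => ‖fr z‖ := by
  rw [Metric.continuous_iff]
  intro b ε hε
  refine ⟨ε, hε, fun a ha => ?_⟩
  have h1 := fr_lip a b
  have h2 := fr_lip b a
  rw [dist_eq_norm] at ha
  rw [norm_sub_rev] at h2
  rw [Real.dist_eq, abs_lt]
  constructor <;> linarith

theorem fr_lt_iff {ρ : ℝ} {z : ℂ} : ‖fr z‖ < ρ ↔ ∃ g ∈ GI, ‖z - g‖ < ρ := by
  constructor
  · intro h
    refine ⟨z - fr z, sub_fr_mem z, ?_⟩
    rwa [sub_sub_cancel]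
  · rintro ⟨g, hg, h⟩
    exact lt_of_le_of_lt (fr_le hg) h

theorem GI_norm_lt {g : ℂ} (hg : g ∈ GI) (h : ‖g‖ < 1) : g = 0 := by
  obtain ⟨⟨m, hm⟩, ⟨n, hn⟩⟩ := mem_GI.1 hg
  have h1 := lt_of_le_of_lt (Complex.abs_re_le_norm g) h
  have h2 := lt_of_le_of_lt (Complex.abs_im_le_norm g) h
  rw [hm] at h1
  rw [hn] at h2
  have h3 : |m| < 1 := by exact_mod_cast h1
  have h4 : |n| < 1 := by exact_mod_cast h2
  rw [Int.abs_lt_one_iff] at h3 h4
  apply Complex.ext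
  · rw [hm, h3]; simp
  · rw [hn, h4]; simp

theorem isClosed_GI : IsClosed GI := by
  have : GI = {z : ℂ | ‖fr z‖ = 0} := by
    ext z
    rw [Set.mem_ofPred_eq, norm_eq_zero, fr_eq_zero]
  rw [this]
  exact isClosed_eq fr_continuous continuous_const

theorem fr_abs_lt {z : ℂ} {ρ : ℝ} (h : ‖fr z‖ < ρ) : |(fr z).re| < ρ ∧ |(fr z).im| < ρ :=
  ⟨lt_of_le_of_lt (Complex.abs_re_le_norm _) h, lt_of_le_of_lt (Complex.abs_im_le_norm _) h⟩


end Pool.Agent.TSQ
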