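import Pool.Agent.TSQ.ToSurg
import Pool.Agent.TSK.Gompf

/-!
# TSQ/GompfQ: Gompf's move (assuming the local theorem)
-/

open scoped Manifold ContDiff Topology

namespace Pool.Agent.TSQ
open Pool.Agent.CSG Pool.Agent.TS

theorem gompf_move' {X : Type*} [TopologicalSpace X] [ChartedSpace E4 X] (hsw : SwapStatement X)
    {A : Matrix (Fin 3) (Fin 3) ℤ} (hA : A.det = 1) (h0 : A 0 0 = 1) (h1 : A 1 0 = 1)
    (h2 : A 2 0 = 0) (k : ℤ) (D : CSData A X) :
    Nonempty (CSData (!![1, 0, 0; 0, 1, k; 0, 0, 1] * A) X) :=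
  TSK.gompf_move_aux hsw (fun hκ hε hε' hδ D => surg_of_pd hsw hκ hε hε' hδ D) hA h0 h1 h2 k D

end Pool.Agent.TSQ
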