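import Pool.Agent.TS.QDef
import Pool.Agent.TSQ.FL
import Pool.Agent.CSG.HHb
import Pool.Agent.UNQ.Small

/-!
# TSQ/Tw: the coordinates of a mapping torus across the torus `T`

Let `D : QD κ ε k e X`, `e = ± 1`.  For `(x0, t)` not a puncture let
`QG D (x, t) = B (pt x0 (u + e arg (FL x0 t) / 2π) y, t)`, and `jT (1/4 - e u, y, 0)` at the punctures.
Near the punctures this is `jT (1/4 - e u, y, Z)` with `Z = -i p e^{2πiu} / ε` (`e = 1`), `i p̄ e^{2πiu} / ε`
(`e = -1`), `p = (fract x0 - 1/2) + i (t - 1/2)`.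
-/

open scoped Manifold ContDiff Topology
open Complex (I)
open Set Filter

namespace Pool.Agent.TSQ
open Pool.Agent.CSG Pool.Agent.TS

theorem ex_add (a b : ℝ) : ex (a + b) = ex a * ex b := by
  unfold ex
  rw [← Complex.exp_add]
  congr 1
  push_cast; ring

theorem ex_neg (a : ℝ) : ex (-a) = (starRingEnd ℂ) (ex a) := by
  unfold ex
  rw [← Complex.exp_conj, map_mul, Complex.conj_ofReal, Complex.conj_I]
  congr 1
  push_cast; ring

theorem ex_int (m : ℤ) : ex m = 1 := by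
  unfold ex
  rw [Complex.exp_eq_one_iff]
  exact ⟨m, by push_cast; ring⟩

theorem ex_zero : ex 0 = 1 := by
  have := ex_int 0
  simpa using this

theorem ex_norm (a : ℝ) : ‖ex a‖ = 1 := by
  unfold ex
  rw [Complex.norm_exp_ofReal_mul_I]

theorem ex_ne (a : ℝ) : ex a ≠ 0 := Complex.exp_ne_zero _

theorem ex_eq_iff {u u' : ℝ} : ex u = ex u' ↔ ∃ m : ℤ, u' = u + m := exp_eq_iff

theorem ex_quarter : ex (1 / 4) = I := by
  unfold ex
  rw [show (2 * Real.pi * (1 / 4) : ℝ) = Real.pi / 2 by ring]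
  push_cast
  exact Complex.exp_pi_div_two_mul_I

theorem ex_half : ex (1 / 2) = -1 := by
  unfold ex
  rw [show (2 * Real.pi * (1 / 2) : ℝ) = Real.pi by ring]
  exact Complex.exp_pi_mul_I

theorem ex_smooth : ContDiff ℝ ∞ ex := by
  unfold ex
  exact Complex.contDiff_exp.comp
    ((Complex.ofRealCLM.contDiff.comp (contDiff_const.mul contDiff_id)).mul contDiff_const)

/-- the angle of a nonzero complex number, in turns -/
noncomputable def ang (z : ℂ) : ℝ := Complex.arg z / (2 * Real.pi)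

theorem ex_ang {z : ℂ} (hz : z ≠ 0) : (‖z‖ : ℂ) * ex (ang z) = z := by
  unfold ex ang
  have : (2 * Real.pi * (Complex.arg z / (2 * Real.pi)) : ℝ) = Complex.arg z := by
    have := Real.pi_pos
    field_simp
  rw [this]
  exact Complex.norm_mul_exp_arg_mul_I z

theorem ang_eq_of {z : ℂ} (hz : z ≠ 0) {a c : ℝ} (hc : 0 < c) (h : z = c * ex a) :
    ∃ m : ℤ, ang z = a + m := by
  have h1 := ex_ang hz
  have h2 : ‖z‖ = c := by
    rw [h, norm_mul, ex_norm, mul_one, Complex.norm_real, Real.norm_of_nonneg hc.le]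
  have hc0 : (c : ℂ) ≠ 0 := by exact_mod_cast hc.ne'
  rw [h2] at h1
  have h3 : ex a = ex (ang z) := by
    apply mul_left_cancel₀ hc0
    rw [h1, ← h]
  exact ex_eq_iff.1 h3

/-- no puncture, in terms of `OnT` -/
theorem np_iff (x : E3) (t : ℝ) : NP (x 0) t ↔ ¬ OnT x t := by
  unfold NP OnT
  constructor
  · rintro h ⟨ht, a, ha⟩
    apply h
    refine ⟨ht, ?_⟩
    rw [ha, add_comm, Int.fract_add_intCast]
    exact Int.fract_eq_self.2 ⟨by norm_num, by norm_num⟩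
  · rintro h ⟨ht, ha⟩
    apply h
    refine ⟨ht, ⌊x 0⌋, ?_⟩
    have := Int.floor_add_fract (x 0)
    rw [ha] at this
    exact this.symm

section
variable {X : Type*} [TopologicalSpace X] [ChartedSpace E4 X] {κ : Equiv.Perm E3}
  {ε : ℝ} {k e : ℤ}

/-- the twisted point -/
noncomputable def tw (e : ℤ) (x : E3) (t : ℝ) : E3 := pt (x 0) (x 1 + e * ang (FL (x 0) t)) (x 2)

@[simp] theorem tw_zero (e : ℤ) (x : E3) (t : ℝ) : tw e x t 0 = x 0 := by simp [tw]
@[simp] theorem tw_one (e : ℤ) (x : E3) (t : ℝ) : tw e x t 1 = x 1 + e * ang (FL (x 0) t) := by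
  simp [tw]
@[simp] theorem tw_two (e : ℤ) (x : E3) (t : ℝ) : tw e x t 2 = x 2 := by simp [tw]

theorem onT_tw (e : ℤ) (x : E3) (t : ℝ) : OnT (tw e x t) t ↔ OnT x t := by
  unfold OnT; rw [tw_zero]

theorem ang_side {y : ℝ} (h : Int.fract y ≤ 3 / 10 ∨ 7 / 10 ≤ Int.fract y) (t : ℝ) :
    ang (FL y t) = 0 := by
  obtain ⟨c, hc, h1⟩ := FL_side h t
  rw [h1, ang, Complex.arg_ofReal_of_nonneg hc.le, zero_div]

theorem isLat_tw (e : ℤ) (x : E3) (t : ℝ) : IsLat (tw e x t) ↔ IsLat x := by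
  have key : (∃ k : ℤ, x 0 = k) → ang (FL (x 0) t) = 0 := by
    rintro ⟨k, hk⟩
    apply ang_side
    left
    rw [hk, Int.fract_intCast]; norm_num
  unfold tw
  rw [isLat_pt]
  constructor
  · rintro ⟨h0, h1, h2⟩
    rw [key h0] at h1
    rw [← pt_eta x, isLat_pt]
    exact ⟨h0, by simpa using h1, h2⟩
  · intro h
    rw [← pt_eta x, isLat_pt] at h
    obtain ⟨h0, h1, h2⟩ := h
    refine ⟨h0, ?_, h2⟩
    rw [key h0]
    simpa using h1

open Classical in
/-- the coordinates across `T` -/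
noncomputable def QG (D : QD κ ε k e X) (q : E3 × ℝ) : X :=
  if NP (q.1 0) q.2 then D.B (tw e q.1 q.2, q.2) else D.jT (1 / 4 - e * q.1 1, q.1 2, 0)

theorem QG_np (D : QD κ ε k e X) {x : E3} {t : ℝ} (h : NP (x 0) t) :
    QG D (x, t) = D.B (tw e x t, t) := if_pos h

theorem QG_not (D : QD κ ε k e X) {x : E3} {t : ℝ} (h : ¬ NP (x 0) t) :
    QG D (x, t) = D.jT (1 / 4 - e * x 1, x 2, 0) := if_neg h

/-- another branch of the angle -/
theorem B_branch (D : QD κ ε k e X) {x : E3} {t : ℝ} (ht : -(1 / 8) < t) (ht' : t < 9 / 8)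
    (hx : ¬ IsLat x) (h : ¬ OnT x t) (m : ℤ) :
    D.B (pt (x 0) (x 1 + m) (x 2), t) = D.B (x, t) := by
  have := D.B_per x t ![0, m, 0] ht ht' hx h
  rw [← this]
  congr 2
  ext i; fin_cases i <;> simp [vec, pt]

theorem tw_eq_of {x : E3} {t a c : ℝ} (hnp : NP (x 0) t) (hc : 0 < c)
    (h : FL (x 0) t = c * ex a) :
    ∃ m : ℤ, tw e x t = pt (x 0) (x 1 + e * a + m) (x 2) := by
  obtain ⟨m, hm⟩ := ang_eq_of (FL_ne hnp) hc h
  refine ⟨e * m, ?_⟩
  unfold tw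
  rw [hm]
  congr 1
  push_cast; ring

theorem QG_branch (D : QD κ ε k e X) {x : E3} {t a c : ℝ} (ht : -(1 / 8) < t) (ht' : t < 9 / 8)
    (hx : ¬ IsLat x) (hnp : NP (x 0) t) (hc : 0 < c) (h : FL (x 0) t = c * ex a) :
    QG D (x, t) = D.B (pt (x 0) (x 1 + e * a) (x 2), t) ∧ ¬ IsLat (pt (x 0) (x 1 + e * a) (x 2)) := by
  obtain ⟨m, hm⟩ := tw_eq_of (e := e) hnp hc h
  have h1 : ¬ IsLat (tw e x t) := by rwa [isLat_tw]
  have h2 : ¬ OnT (tw e x t) t := by rw [onT_tw, ← np_iff]; exact hnp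
  have h3 := B_branch D ht ht' h1 h2 (-m)
  rw [hm] at h3
  simp only [pt_zero', pt_one', pt_two'] at h3
  have e1 : x 1 + e * a + m + ((-m : ℤ) : ℝ) = x 1 + e * a := by push_cast; ring
  rw [e1] at h3
  refine ⟨by rw [QG_np D hnp, h3, hm], ?_⟩
  intro hl
  apply h1
  rw [hm]
  rw [isLat_pt] at hl ⊢
  obtain ⟨l0, ⟨k1, l1⟩, l2⟩ := hl
  exact ⟨l0, ⟨k1 + m, by rw [l1]; push_cast; ring⟩, l2⟩

end

end Pool.Agent.TSQ
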