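import Pool.Agent.TSQ.Fr
import Pool.Agent.TSQ.Tw
import Pool.Agent.CSG.SFrame

/-!
# TSQ/LSof: the local structure of a `PD` near the binding and the torus `x0 = t = 1/2`
-/

open scoped Manifold ContDiff Topology
open Complex (I)
open Set Filter

namespace Pool.Agent.TSQ
open Pool.Agent.CSG Pool.Agent.TS

/-- the coordinate near the fibre torus -/
noncomputable def Rc (x : E3) (t : ℝ) : ℂ := ((x 0 - 1 / 2 : ℝ) : ℂ) + ((t - 1 / 2 : ℝ) : ℂ) * I
/-- the coordinate near the axis -/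
noncomputable def Pc (x : E3) : ℂ := ((x 2 : ℝ) : ℂ) + ((x 1 : ℝ) : ℂ) * I
/-- the point with given coordinates -/
noncomputable def xc (p r : ℂ) : E3 := pt (1 / 2 + r.re) p.im p.re

@[simp] theorem Rc_re (x : E3) (t : ℝ) : (Rc x t).re = x 0 - 1 / 2 := by simp [Rc]
@[simp] theorem Rc_im (x : E3) (t : ℝ) : (Rc x t).im = t - 1 / 2 := by simp [Rc]
@[simp] theorem Pc_re (x : E3) : (Pc x).re = x 2 := by simp [Pc]
@[simp] theorem Pc_im (x : E3) : (Pc x).im = x 1 := by simp [Pc]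
@[simp] theorem xc_zero (p r : ℂ) : xc p r 0 = 1 / 2 + r.re := by simp [xc]
@[simp] theorem xc_one (p r : ℂ) : xc p r 1 = p.im := by simp [xc]
@[simp] theorem xc_two (p r : ℂ) : xc p r 2 = p.re := by simp [xc]

theorem Pc_xc (p r : ℂ) : Pc (xc p r) = p := by
  apply Complex.ext <;> simp

theorem Rc_xc (p r : ℂ) (t : ℝ) : Rc (xc p r) t = ((r.re : ℝ) : ℂ) + ((t - 1 / 2 : ℝ) : ℂ) * I := by
  apply Complex.ext <;> simp

theorem xc_PR (x : E3) (t : ℝ) : xc (Pc x) (Rc x t) = x := by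
  unfold xc
  rw [Pc_im, Pc_re, Rc_re]
  rw [show (1 : ℝ) / 2 + (x 0 - 1 / 2) = x 0 by ring, pt_eta]

theorem Pc_mem {x : E3} : Pc x ∈ GI ↔ ¬ OffAx x := by
  rw [mem_GI, Pc_re, Pc_im]
  unfold OffAx
  rw [not_not, and_comm]

theorem Pc_add (x : E3) (m : Fin 3 → ℤ) : Pc (x + vec m) = Pc x + ((m 2 : ℂ) + (m 1 : ℂ) * I) := by
  have h1 : (x + vec m) 1 = x 1 + m 1 := rfl
  have h2 : (x + vec m) 2 = x 2 + m 2 := rfl
  unfold Pc
  rw [h1, h2]
  push_cast
  ring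

theorem fr_Pc_add (x : E3) (m : Fin 3 → ℤ) : fr (Pc (x + vec m)) = fr (Pc x) := by
  rw [Pc_add]
  exact fr_add (GI_mk _ _)

theorem Rc_add (x : E3) (t : ℝ) (m : Fin 3 → ℤ) : Rc (x + vec m) t = Rc x t + (m 0 : ℂ) := by
  have h1 : (x + vec m) 0 = x 0 + m 0 := rfl
  unfold Rc
  rw [h1]
  push_cast
  ring

theorem GI_int (m : ℤ) : (m : ℂ) ∈ GI := ⟨m, 0, by simp⟩

theorem fr_Rc_add (x : E3) (t : ℝ) (m : Fin 3 → ℤ) : fr (Rc (x + vec m) t) = fr (Rc x t) := by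
  rw [Rc_add]
  exact fr_add (GI_int _)

section kap
variable {κ : Equiv.Perm E3} {δ : ℝ}

theorem kappa_near (hκ : AxMono κ δ) {x : E3} (h : ‖fr (Pc x)‖ < δ) : ∃ m, κ x = x + vec m := by
  obtain ⟨A, hA⟩ := hκ.mono
  set m : Fin 3 → ℤ := ![0, round (x 1), round (x 2)] with hm
  obtain ⟨h1, h2⟩ := fr_abs_lt h
  rw [fr_re, Pc_re] at h1
  rw [fr_im, Pc_im] at h2
  have h3 : κ (x - vec m) = x - vec m := by
    apply hκ.axis
    · show |x 1 - (m 1 : ℝ)| < δ
      rw [hm]; exact h2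
    · show |x 2 - (m 2 : ℝ)| < δ
      rw [hm]; exact h1
  have h4 := hA.lat (x - vec m) m
  rw [sub_add_cancel, h3] at h4
  refine ⟨A.mulVec m - m, ?_⟩
  rw [h4, sub_eq_add_neg (A.mulVec m), vec_add, vec_neg]
  abel

theorem kappa_fr (hκ : AxMono κ δ) {x : E3} (h : ‖fr (Pc x)‖ < δ) : fr (Pc (κ x)) = fr (Pc x) := by
  obtain ⟨m, hm⟩ := kappa_near hκ h
  rw [hm, fr_Pc_add]

theorem kappa_fr' (hκ : AxMono κ δ) {x : E3} (h : ‖fr (Pc (κ x))‖ < δ) :
    fr (Pc x) = fr (Pc (κ x)) := by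
  obtain ⟨A, hA⟩ := hκ.mono
  set m : Fin 3 → ℤ := ![0, round ((κ x) 1), round ((κ x) 2)] with hm
  obtain ⟨h1, h2⟩ := fr_abs_lt h
  rw [fr_re, Pc_re] at h1
  rw [fr_im, Pc_im] at h2
  set z := κ x - vec m with hz
  have h3 : κ z = z := by
    apply hκ.axis
    · show |(κ x) 1 - (m 1 : ℝ)| < δ
      rw [hm]; exact h2
    · show |(κ x) 2 - (m 2 : ℝ)| < δ
      rw [hm]; exact h1
  have h4 : κ (z + vec (A⁻¹.mulVec m)) = κ x := by
    rw [hA.lat, h3, Matrix.mulVec_mulVec, Matrix.mul_nonsing_inv A hA.unit, Matrix.one_mulVec, hz,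
      sub_add_cancel]
  have h5 := κ.injective h4
  have h6 : κ x = z + vec m := by rw [hz, sub_add_cancel]
  rw [h6, ← h5, fr_Pc_add, fr_Pc_add]

end kap

/-- `r.im` near a half-integer is far from the integers -/
theorem fr_half {r : ℂ} {n : ℤ} (h : |1 / 2 + r.im - n| ≤ 1 / 8) : 3 / 8 ≤ ‖fr r‖ := by
  have h1 := Complex.abs_im_le_norm (fr r)
  rw [fr_im] at h1
  refine le_trans ?_ h1
  set j : ℤ := n - round r.im with hj
  have h2 : r.im - round r.im = (j : ℝ) - 1 / 2 + (1 / 2 + r.im - n) := by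
    rw [hj]; push_cast; ring
  rw [h2]
  rw [abs_le] at h
  rcases le_or_gt j 0 with h3 | h3
  · have h4 : (j : ℝ) ≤ 0 := by exact_mod_cast h3
    rw [le_abs]
    right; linarith
  · have h4 : (1 : ℝ) ≤ j := by exact_mod_cast h3
    rw [le_abs]
    left; linarith

theorem yc_norm_le (y : S2) : ‖yc y‖ ≤ 1 := by
  have hy1 : ‖(y : E3)‖ = 1 := by
    have := y.2
    rwa [mem_sphere_zero_iff_norm] at this
  have h1 : ‖yc y‖ ^ 2 ≤ 1 := by
    unfold yc
    rw [Complex.sq_norm, Complex.normSq_add_mul_I]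
    have h2 := EuclideanSpace.norm_eq (y : E3)
    rw [hy1] at h2
    have h3 : (1 : ℝ) = ∑ i, ‖(y : E3) i‖ ^ 2 := by
      have h4 := congrArg (fun z : ℝ => z ^ 2) h2
      simp only [one_pow] at h4
      rw [h4, Real.sq_sqrt (Finset.sum_nonneg fun i _ => sq_nonneg _)]
    rw [Fin.sum_univ_three] at h3
    simp only [Real.norm_eq_abs, sq_abs] at h3
    nlinarith [sq_nonneg ((y : E3) 0)]
  nlinarith [norm_nonneg (yc y)]

section
variable {X : Type*} [TopologicalSpace X] [ChartedSpace E4 X] {κ : Equiv.Perm E3}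
  {ε ρ δ : ℝ} {k e : ℤ}

theorem H_ax (D : PD κ ε k e X) (hκ : AxMono κ δ) {x : E3} {t : ℝ} (h : ‖fr (Pc x)‖ < δ)
    (hx : OffAx x) (ht : -(1 / 8) < t) (ht' : t < 1 / 8) : D.H (x, t + 1) = D.H (x, t) := by
  obtain ⟨m, hm⟩ := kappa_near hκ h
  rw [← D.H_mon x t ht ht' hx, hm, D.H_per x t m ht (by linarith) hx]

open Classical in
/-- the coordinates of the local structure -/
noncomputable def Gl (D : PD κ ε k e X) (q : ℂ × ℂ) : X :=
  if q.1 ∈ GI then D.jb (0, 0, 0) else D.H (xc q.1 q.2, Int.fract (1 / 2 + q.2.im))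

theorem Gl_off (D : PD κ ε k e X) {p r : ℂ} (hp : p ∉ GI) :
    Gl D (p, r) = D.H (xc p r, Int.fract (1 / 2 + r.im)) := if_neg hp

theorem off_xc {p r : ℂ} (hp : p ∉ GI) : OffAx (xc p r) := by
  by_contra h
  rw [← Pc_mem, Pc_xc] at h
  exact hp h

theorem Gl_key (D : PD κ ε k e X) (hκ : AxMono κ δ) (hρδ : ρ ≤ δ) (hρ : ρ ≤ 1 / 8) {p r : ℂ}
    (h : (p, r) ∈ Wd ρ) (hp : p ∉ GI) (n : ℤ) (h1 : (n : ℝ) - 1 / 8 < 1 / 2 + r.im)
    (h2 : 1 / 2 + r.im < n + 9 / 8) : Gl D (p, r) = D.H (xc p r, 1 / 2 + r.im - n) := by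
  rw [Gl_off D hp]
  have hnear : |1 / 2 + r.im - n| ≤ 1 / 8 ∨ |1 / 2 + r.im - (n + 1 : ℤ)| ≤ 1 / 8 →
      ‖fr (Pc (xc p r))‖ < δ := by
    intro h3
    have h4 : 3 / 8 ≤ ‖fr r‖ := by
      rcases h3 with h3 | h3
      · exact fr_half h3
      · exact fr_half h3
    rcases h with h | h
    · rw [Pc_xc]
      have h' : ‖fr p‖ < ρ := h
      linarith
    · have h' : ‖fr r‖ < ρ := h
      linarith
  rcases lt_or_ge (1 / 2 + r.im) n with h3 | h3
  · have hf : ⌊1 / 2 + r.im⌋ = n - 1 := Int.floor_eq_iff.2 ⟨by push_cast; linarith, by push_cast; linarith⟩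
    rw [Int.fract, hf]
    have h4 := H_ax D hκ (x := xc p r) (t := 1 / 2 + r.im - n) (hnear (Or.inl (by
      rw [abs_le]; constructor <;> linarith))) (off_xc hp) (by linarith) (by linarith)
    rw [← h4]
    congr 2
    push_cast; ring
  rcases lt_or_ge (1 / 2 + r.im) (n + 1) with h4 | h4
  · have hf : ⌊1 / 2 + r.im⌋ = n := Int.floor_eq_iff.2 ⟨h3, h4⟩
    rw [Int.fract, hf]
  · have hf : ⌊1 / 2 + r.im⌋ = n + 1 := Int.floor_eq_iff.2 ⟨by push_cast; linarith, by push_cast; linarith⟩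
    rw [Int.fract, hf]
    have h5 := H_ax D hκ (x := xc p r) (t := 1 / 2 + r.im - (n + 1)) (hnear (Or.inr (by
      push_cast
      rw [abs_le]; constructor <;> linarith))) (off_xc hp) (by linarith) (by linarith)
    have e1 : 1 / 2 + r.im - ((n + 1 : ℤ) : ℝ) = 1 / 2 + r.im - (n + 1) := by push_cast; ring
    rw [e1, ← h5]
    congr 2
    ring

/-- the affine coordinates -/
noncomputable def affE (n : ℤ) : (ℂ × ℂ) ≃ (E3 × ℝ) where
  toFun q := (xc q.1 q.2, 1 / 2 + q.2.im - n)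
  invFun w := (Pc w.1, ((w.1 0 - 1 / 2 : ℝ) : ℂ) + ((w.2 - 1 / 2 + n : ℝ) : ℂ) * I)
  left_inv q := by
    apply Prod.ext
    · exact Pc_xc _ _
    · apply Complex.ext
      · simp
      · simp
        ring
  right_inv w := by
    apply Prod.ext
    · show xc (Pc w.1) _ = w.1
      unfold xc
      rw [Pc_im, Pc_re]
      simp [pt_eta]
    · simp
      ring

theorem affE_smooth (n : ℤ) : ContDiff ℝ ∞ (affE n) := by
  have h1 : ContDiff ℝ ∞ fun q : ℂ × ℂ => q.1.re := Complex.reCLM.contDiff.comp contDiff_fst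
  have h2 : ContDiff ℝ ∞ fun q : ℂ × ℂ => q.1.im := Complex.imCLM.contDiff.comp contDiff_fst
  have h3 : ContDiff ℝ ∞ fun q : ℂ × ℂ => q.2.re := Complex.reCLM.contDiff.comp contDiff_snd
  have h4 : ContDiff ℝ ∞ fun q : ℂ × ℂ => q.2.im := Complex.imCLM.contDiff.comp contDiff_snd
  exact (UNQ.contDiff_pt (contDiff_const.add h3) h2 h1).prodMk
    ((contDiff_const.add h4).sub contDiff_const)

theorem affE_symm_smooth (n : ℤ) : ContDiff ℝ ∞ (affE n).symm := by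
  have hc : ∀ i : Fin 3, ContDiff ℝ ∞ fun q : E3 × ℝ => q.1 i := fun i =>
    (FunBasic_coord i).comp contDiff_fst
  have hof : ∀ {f : E3 × ℝ → ℝ}, ContDiff ℝ ∞ f → ContDiff ℝ ∞ fun q => ((f q : ℝ) : ℂ) :=
    fun h => Complex.ofRealCLM.contDiff.comp h
  show ContDiff ℝ ∞ fun w : E3 × ℝ =>
    (Pc w.1, ((w.1 0 - 1 / 2 : ℝ) : ℂ) + ((w.2 - 1 / 2 + n : ℝ) : ℂ) * I)
  exact ((hof (hc 2)).add ((hof (hc 1)).mul contDiff_const)).prodMk
    ((hof ((hc 0).sub contDiff_const)).add ((hof ((contDiff_snd.sub contDiff_const).add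
      contDiff_const)).mul contDiff_const))

theorem isOpen_Wd (ρ : ℝ) : IsOpen (Wd ρ) := by
  have h1 : IsOpen {a : ℂ × ℂ | ‖fr a.1‖ < ρ} :=
    isOpen_lt (fr_continuous.comp continuous_fst) continuous_const
  have h2 : IsOpen {a : ℂ × ℂ | ‖fr a.2‖ < ρ} :=
    isOpen_lt (fr_continuous.comp continuous_snd) continuous_const
  exact h1.union h2

theorem onC_iff {p r : ℂ} : OnC (xc p r) (Int.fract (1 / 2 + r.im)) ↔ OnCK p r := by
  unfold OnC OnCK
  rw [xc_zero, xc_two, mem_GI]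
  have h1 : Int.fract (1 / 2 + r.im) = 1 / 2 ↔ ∃ b : ℤ, r.im = b := by
    constructor
    · intro h
      have := Int.floor_add_fract (1 / 2 + r.im)
      rw [h] at this
      exact ⟨⌊1 / 2 + r.im⌋, by linarith⟩
    · rintro ⟨b, hb⟩
      rw [hb, Int.fract_add_intCast]
      exact Int.fract_eq_self.2 ⟨by norm_num, by norm_num⟩
  have h2 : (∃ a : ℤ, 1 / 2 + r.re = a + 1 / 2) ↔ ∃ a : ℤ, r.re = a := by
    constructor
    · rintro ⟨a, ha⟩; exact ⟨a, by linarith⟩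
    · rintro ⟨a, ha⟩; exact ⟨a, by linarith⟩
  rw [h1, h2]
  tauto

/-- the local structure -/
noncomputable def toLS (D : PD κ ε k e X) (hκ : AxMono κ δ) (hε : 0 < ε) (hε' : ε ≤ 1 / 1000)
    (hρ : ρ ≤ 1 / 8) (hρδ : ρ ≤ δ) : LS ε ρ e k X where
  G := Gl D
  jK := D.jc
  jT q := D.jb (q.1, q.2.1 + 1 / 2, q.2.2)
  G_per p r a b h ha hb := by
    by_cases hp : p ∈ GI
    · have hp' : p + a ∈ GI := GI_add hp ha
      unfold Gl
      rw [if_pos hp, if_pos hp']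
    · have hp' : p + a ∉ GI := fun h => hp (by
        have := GI_sub h ha
        rwa [add_sub_cancel_right] at this)
      rw [Gl_off D hp, Gl_off D hp']
      obtain ⟨⟨a1, ha1⟩, ⟨a2, ha2⟩⟩ := mem_GI.1 ha
      obtain ⟨⟨b1, hb1⟩, ⟨b2, hb2⟩⟩ := mem_GI.1 hb
      have e1 : 1 / 2 + (r + b).im = 1 / 2 + r.im + b2 := by rw [Complex.add_im, hb2]; ring
      rw [e1, Int.fract_add_intCast]
      have h0 := Int.fract_nonneg (1 / 2 + r.im)
      have h1 := Int.fract_lt_one (1 / 2 + r.im)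
      rw [← D.H_per (xc p r) _ ![b1, a2, a1] (by linarith) (by linarith) (off_xc hp)]
      congr 2
      ext i; fin_cases i
      · show 1 / 2 + (r + b).re = 1 / 2 + r.re + (b1 : ℝ)
        rw [Complex.add_re, hb1]; ring
      · show (p + a).im = p.im + (a2 : ℝ)
        rw [Complex.add_im, ha2]
      · show (p + a).re = p.re + (a1 : ℝ)
        rw [Complex.add_re, ha1]
  G_loc p r h hp hc := by
    set n := ⌊1 / 2 + r.im⌋ with hn
    have f1 := Int.floor_le (1 / 2 + r.im)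
    have f2 := Int.lt_floor_add_one (1 / 2 + r.im)
    have h1 : IsLocalDiffeomorphAt 𝓘(ℝ, ℂ × ℂ) 𝓘(ℝ, E3 × ℝ) ∞ (affE n) (p, r) :=
      ld_of_perm (affE_smooth n) (affE_symm_smooth n) _
    have h2 : IsLocalDiffeomorphAt 𝓘(ℝ, E3 × ℝ) (𝓡 4) ∞ D.H (affE n (p, r)) := by
      have e1 : affE n (p, r) = (xc p r, Int.fract (1 / 2 + r.im)) := rfl
      rw [e1]
      have h0 := Int.fract_nonneg (1 / 2 + r.im)
      have h1 := Int.fract_lt_one (1 / 2 + r.im)
      exact D.H_loc _ _ (by linarith) (by linarith) (off_xc hp) (fun h => hc (onC_iff.1 h))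
    have h3 := IsLocalDiffeomorphAt.comp (hf := h1) (hg := h2) (𝓡 4) X
    refine ld_congr h3 ?_
    have e1 : ∀ᶠ q : ℂ × ℂ in 𝓝 (p, r), q ∈ Wd ρ := (isOpen_Wd ρ).mem_nhds h
    have e2 : ∀ᶠ q : ℂ × ℂ in 𝓝 (p, r), q.1 ∉ GI := by
      have : ∀ᶠ p' : ℂ in 𝓝 p, p' ∉ GI := isClosed_GI.isOpen_compl.mem_nhds hp
      exact (continuous_fst.tendsto (p, r)).eventually this
    have e3 : ∀ᶠ q : ℂ × ℂ in 𝓝 (p, r), (n : ℝ) - 1 / 8 < 1 / 2 + q.2.im ∧
        1 / 2 + q.2.im < n + 9 / 8 := by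
      have hc : Continuous fun q : ℂ × ℂ => 1 / 2 + q.2.im := by fun_prop
      exact (hc.tendsto (p, r)).eventually (Ioo_mem_nhds (by linarith) (by linarith))
    filter_upwards [e1, e2, e3] with q q1 q2 q3
    exact Gl_key D hκ hρδ hρ q1 q2 n q3.1 q3.2
  G_inj p r p' r' h hp hc h' hp' hc' he := by
    rw [Gl_off D hp, Gl_off D hp'] at he
    obtain ⟨h1, m, h2⟩ := D.H_inj _ _ _ _ (off_xc hp) (fun h => hc (onC_iff.1 h)) (off_xc hp')
      (fun h => hc' (onC_iff.1 h)) (Int.fract_nonneg _) (Int.fract_lt_one _) (Int.fract_nonneg _)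
      (Int.fract_lt_one _) he
    have g0 := congrArg (fun z : E3 => z 0) h2
    have g1 := congrArg (fun z : E3 => z 1) h2
    have g2 := congrArg (fun z : E3 => z 2) h2
    have k0 : 1 / 2 + r'.re = 1 / 2 + r.re + m 0 := by simpa [vec] using g0
    have k1 : p'.im = p.im + m 1 := by simpa [vec] using g1
    have k2 : p'.re = p.re + m 2 := by simpa [vec] using g2
    have f1 := Int.floor_add_fract (1 / 2 + r.im)
    have f2 := Int.floor_add_fract (1 / 2 + r'.im)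
    rw [← h1] at f2
    constructor
    · rw [mem_GI]
      exact ⟨⟨m 2, by rw [Complex.sub_re, k2]; ring⟩, ⟨m 1, by rw [Complex.sub_im, k1]; ring⟩⟩
    · rw [mem_GI]
      refine ⟨⟨m 0, by rw [Complex.sub_re]; linarith⟩, ⟨⌊1 / 2 + r'.im⌋ - ⌊1 / 2 + r.im⌋, ?_⟩⟩
      rw [Complex.sub_im]
      push_cast
      linarith
  jK_loc := D.jc_loc
  jK_inj := D.jc_inj
  jT_per q y Z a b := by
    have := D.jb_per q (y + 1 / 2) Z a b
    rw [← this]
    congr 3
    show y + b + 1 / 2 = _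
    ring
  jT_loc q y Z hZ := by
    have h1 : IsLocalDiffeomorphAt 𝓘(ℝ, ℝ × ℝ × ℂ) 𝓘(ℝ, ℝ × ℝ × ℂ) ∞
        (fun q : ℝ × ℝ × ℂ => (q.1, q.2.1 + 1 / 2, q.2.2)) (q, y, Z) := by
      refine ld_of_perm (f := (⟨fun q : ℝ × ℝ × ℂ => (q.1, q.2.1 + 1 / 2, q.2.2),
        fun q : ℝ × ℝ × ℂ => (q.1, q.2.1 - 1 / 2, q.2.2), fun q => by simp, fun q => by simp⟩ :
        ℝ × ℝ × ℂ ≃ ℝ × ℝ × ℂ)) ?_ ?_ _
      · exact contDiff_fst.prodMk (((contDiff_fst.comp contDiff_snd).add contDiff_const).prodMk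
          (contDiff_snd.comp contDiff_snd))
      · exact contDiff_fst.prodMk (((contDiff_fst.comp contDiff_snd).sub contDiff_const).prodMk
          (contDiff_snd.comp contDiff_snd))
    exact IsLocalDiffeomorphAt.comp (hf := h1) (hg := D.jb_loc _ _ _ hZ) (𝓡 4) X
  jT_inj q y Z q' y' Z' hZ hZ' h := by
    obtain ⟨h1, ⟨b, hb⟩, h3⟩ := D.jb_inj _ _ _ _ _ _ hZ hZ' h
    exact ⟨h1, ⟨b, by linarith⟩, h3⟩
  glueK y t s hs hs1 := by
    have hg := D.gluec y t s hs hs1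
    rw [hg]
    set z : ℂ := ε * s * ex (e * thc t) * yc y with hz
    have hy1 : ‖(y : E3)‖ = 1 := by
      have := y.2
      rwa [mem_sphere_zero_iff_norm] at this
    have hyc : ‖yc y‖ ≤ 1 := yc_norm_le y
    have hy0 : |(y : E3) 0| ≤ 1 := by
      have := coord_le_norm (y : E3) 0
      rwa [hy1] at this
    have hzn : ‖z‖ ≤ ε := by
      rw [hz, norm_mul, norm_mul, norm_mul, ex_norm, Complex.norm_real, Complex.norm_real,
        Real.norm_of_nonneg hε.le, Real.norm_of_nonneg hs.le]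
      have : s * ‖yc y‖ ≤ 1 := by nlinarith [norm_nonneg (yc y)]
      nlinarith
    have hzi := Complex.abs_im_le_norm z
    have hp : ((1 / 2 + ε * s * (y : E3) 0 : ℝ) : ℂ) + (t : ℝ) * I ∉ GI := by
      rw [mem_GI]
      rintro ⟨⟨a, ha⟩, -⟩
      have h1 : (1 : ℝ) / 2 + ε * s * (y : E3) 0 = a := by simpa using ha
      rw [abs_le] at hy0
      have h2 : (0 : ℝ) < a := by nlinarith [mul_pos hε hs]
      have h3 : (a : ℝ) < 1 := by nlinarith [mul_pos hε hs]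
      have h4 : 0 < a := by exact_mod_cast h2
      have h5 : a < 1 := by exact_mod_cast h3
      omega
    rw [Gl_off D hp]
    have hfr : Int.fract (1 / 2 + z.im) = 1 / 2 + z.im := by
      rw [abs_le] at hzi
      exact Int.fract_eq_self.2 ⟨by linarith, by linarith⟩
    rw [hfr]
    congr 2
    unfold xc
    congr 1
    · simp
    · simp
  glueT q y u s hs hs5 := by
    set t := Int.fract (u + 1 / 2) with ht
    have h0 := Int.fract_nonneg (u + 1 / 2)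
    have h1 := Int.fract_lt_one (u + 1 / 2)
    have hf := Int.floor_add_fract (u + 1 / 2)
    rw [← ht] at h0 h1 hf
    have hg := D.glueb q (y + 1 / 2) t s (by linarith) (by linarith) hs hs5
    have e1 : ex (t - 1 / 2) = ex u := ex_eq_iff.2 ⟨⌊u + 1 / 2⌋, by linarith⟩
    have e2 : ex (q + k * (t - 1 / 2)) = ex (q + k * u) := by
      apply ex_eq_iff.2
      refine ⟨k * ⌊u + 1 / 2⌋, ?_⟩
      have : u = t - 1 / 2 + ⌊u + 1 / 2⌋ := by linarith
      conv_lhs => rw [this]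
      push_cast; ring
    rw [e1, e2] at hg
    show D.jb (q, y + 1 / 2, s * ex u) = _
    rw [hg]
    set p : ℂ := ε * s * ex (q + k * u) with hp
    have hpn : ‖p‖ = ε * s := by
      rw [hp, norm_mul, norm_mul, ex_norm, Complex.norm_real, Complex.norm_real,
        Real.norm_of_nonneg hε.le, Real.norm_of_nonneg hs.le, mul_one]
    have hpG : p ∉ GI := by
      intro h
      have h2 := GI_norm_lt h (by rw [hpn]; nlinarith)
      rw [h2, norm_zero] at hpn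
      have := mul_pos hε hs
      linarith
    rw [Gl_off D hpG]
    have e3 : (((y : ℝ) : ℂ) + ((u : ℝ) : ℂ) * I).im = u := by simp
    have e4 : (((y : ℝ) : ℂ) + ((u : ℝ) : ℂ) * I).re = y := by simp
    rw [e3, add_comm (1 / 2) u, ← ht]
    unfold xc
    rw [e4, add_comm (1 / 2) y]
  disjK y p r h hp hc := by
    rw [Gl_off D hp]
    exact D.disjc _ _ _ (off_xc hp) (fun h => hc (onC_iff.1 h)) (Int.fract_nonneg _)
      (Int.fract_lt_one _)
  disjT q y p r h hp hc := by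
    rw [Gl_off D hp]
    exact D.disjb _ _ _ _ (off_xc hp) (fun h => hc (onC_iff.1 h)) (Int.fract_nonneg _)
      (Int.fract_lt_one _)
  disjKT y q y' := D.disjbc _ _ _

end

end Pool.Agent.TSQ
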