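import Pool.Agent.TSQ.Psi

/-!
# TSQ/Near: `QG` is a local diffeomorphism
-/

open scoped Manifold ContDiff Topology
open Complex (I)
open Set Filter

namespace Pool.Agent.TSQ
open Pool.Agent.CSG Pool.Agent.TS

theorem fract_near {y : ℝ} {a : ℤ} (h : |y - a - 1 / 2| ≤ 1 / 10) : Int.fract y = y - a := by
  rw [abs_le] at h
  have : ⌊y⌋ = a := Int.floor_eq_iff.2 ⟨by linarith, by linarith⟩
  rw [← this]
  rfl

theorem abs_le_of_norm {a b r : ℝ} (h : ‖((a : ℝ) : ℂ) + ((b : ℝ) : ℂ) * I‖ < r) :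
    |a| < r ∧ |b| < r := by
  constructor
  · have := Complex.abs_re_le_norm (((a : ℝ) : ℂ) + ((b : ℝ) : ℂ) * I)
    simp only [Complex.add_re, Complex.ofReal_re, Complex.mul_re, Complex.ofReal_im, Complex.I_re,
      Complex.I_im, mul_zero, zero_mul, sub_zero, add_zero, mul_one, sub_self] at this
    linarith
  · have := Complex.abs_im_le_norm (((a : ℝ) : ℂ) + ((b : ℝ) : ℂ) * I)
    simp only [Complex.add_im, Complex.ofReal_re, Complex.mul_im, Complex.ofReal_im, Complex.I_re,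
      Complex.I_im, mul_zero, zero_mul, zero_add, add_zero, mul_one] at this
    linarith

section
variable {X : Type*} [TopologicalSpace X] [ChartedSpace E4 X] {κ : Equiv.Perm E3}
  {ε : ℝ} {k e : ℤ}

theorem QG_psi (D : QD κ ε k e X) (he : e = 1 ∨ e = -1) (hε : 0 < ε) (hε' : ε ≤ 1 / 1000)
    {x : E3} {t : ℝ} {a : ℤ}
    (hp : ‖((x 0 - a - 1 / 2 : ℝ) : ℂ) + ((t - 1 / 2 : ℝ) : ℂ) * I‖ < 5 * ε) :
    QG D (x, t) = D.jT (psi e he ε hε a (x, t)) := by
  set p : ℂ := ((x 0 - a - 1 / 2 : ℝ) : ℂ) + ((t - 1 / 2 : ℝ) : ℂ) * I with hpd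
  obtain ⟨h1, h2⟩ := abs_le_of_norm hp
  have hfr : Int.fract (x 0) = x 0 - a := fract_near (by linarith)
  have hε0 : (ε : ℂ) ≠ 0 := by exact_mod_cast hε.ne'
  by_cases hp0 : p = 0
  · have e1 : x 0 - a - 1 / 2 = 0 := by
      have := congrArg Complex.re hp0
      simpa [hpd] using this
    have e2 : t - 1 / 2 = 0 := by
      have := congrArg Complex.im hp0
      simpa [hpd] using this
    have hn : ¬ NP (x 0) t := by
      unfold NP
      rw [not_not]
      exact ⟨by linarith, by rw [hfr]; linarith⟩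
    rw [QG_not D hn, psi_apply, ← hpd, hp0]
    simp
  · -- a true point
    have hnp : NP (x 0) t := by
      rintro ⟨e1, e2⟩
      rw [hfr] at e2
      apply hp0
      have e3 : x 0 - a - 1 / 2 = 0 := by linarith
      have e4 : t - 1 / 2 = 0 := by linarith
      rw [hpd, e3, e4]; simp
    have hx : ¬ IsLat x := by
      intro hl
      rw [← pt_eta x, isLat_pt] at hl
      obtain ⟨⟨m, hm⟩, -, -⟩ := hl
      rw [hm] at h1
      have h3 : |((m : ℝ) - a - 1 / 2)| < 1 / 200 := by linarith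
      rw [abs_lt] at h3
      have h4 : (m : ℝ) - a < 1 := by linarith
      have h5 : (0 : ℝ) < (m : ℝ) - a := by linarith
      have h6 : m - a < 1 := by exact_mod_cast h4
      have h7 : 0 < m - a := by exact_mod_cast h5
      omega
    have hT : ¬ OnT x t := (np_iff x t).1 hnp
    set Z : ℂ := (ε⁻¹ : ℝ) * (cj e (-I * p) * ex (x 1)) with hZ
    have hZ0 : Z ≠ 0 := by
      rw [hZ]
      refine mul_ne_zero (by exact_mod_cast (inv_ne_zero hε.ne')) (mul_ne_zero ?_ (ex_ne _))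
      rw [Ne, ContinuousLinearEquiv.map_eq_zero_iff]
      exact mul_ne_zero (neg_ne_zero.2 Complex.I_ne_zero) hp0
    have hZn : ‖Z‖ = ‖p‖ / ε := by
      rw [hZ, norm_mul, norm_mul, cj_norm, norm_mul, ex_norm, Complex.norm_real,
        Real.norm_of_nonneg (inv_pos.2 hε).le, norm_neg, Complex.norm_I]
      ring
    have hpn : 0 < ‖p‖ := norm_pos_iff.2 hp0
    set u := ang Z with hu
    have hZu : (‖Z‖ : ℂ) * ex u = Z := ex_ang hZ0
    -- the branch
    have hb : FL (x 0) t = (2 * Real.pi * ‖p‖ : ℝ) * ex (e * (u - x 1)) := by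
      rw [FL_mid (by rw [abs_le]; rw [abs_lt] at h2; constructor <;> linarith)
        (by rw [hfr, abs_le]; rw [abs_lt] at h1; constructor <;> linarith), hfr, ← hpd]
      have h3 : ex (e * (u - x 1)) = cj e (ex (u - x 1)) := (cj_ex he _).symm
      have h4 : (‖p‖ : ℂ) * ex (e * (u - x 1)) = -I * p := by
        have h5 : (‖p‖ : ℂ) * ex (u - x 1) = cj e (-I * p) := by
          have h6 : (ε : ℂ) * Z = cj e (-I * p) * ex (x 1) := by
            rw [hZ]
            push_cast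
            rw [← mul_assoc, mul_inv_cancel₀ hε0, one_mul]
          have h7 : (ε : ℂ) * Z = (‖p‖ : ℂ) * ex u := by
            rw [← hZu, hZn]
            push_cast
            field_simp
          have h8 : ex (u - x 1) * ex (x 1) = ex u := by rw [← ex_add, sub_add_cancel]
          apply mul_right_cancel₀ (ex_ne (x 1))
          rw [mul_assoc, h8, ← h7, h6]
        have h9 := congrArg (cj e) h5
        rw [cj_mul, cj_real, cj_cj] at h9
        rw [h3]; exact h9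
      push_cast
      rw [mul_assoc (2 * (Real.pi : ℂ)) (‖p‖ : ℂ), h4]
      ring
    have ht1 : -(1 / 8) < t := by rw [abs_lt] at h2; linarith
    have ht2 : t < 9 / 8 := by rw [abs_lt] at h2; linarith
    obtain ⟨h3, h4⟩ := QG_branch D ht1 ht2 hx hnp (by positivity) hb
    have h5 : x 1 + e * (e * (u - x 1)) = u := by
      rw [← mul_assoc, e_sq he]; ring
    rw [h5] at h3 h4
    rw [h3, psi_apply]
    have hZ5 : ‖Z‖ < 5 := by
      rw [hZn, div_lt_iff₀ hε]; linarith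
    have hg := D.glueT (1 / 4 - e * x 1) (x 2) u ‖Z‖ (norm_pos_iff.2 hZ0) hZ5
    rw [hZu] at hg
    have hPp : (ε : ℂ) * ‖Z‖ * ex (1 / 4 - e * x 1 + e * u) = p := by
      have e1 : ex (1 / 4 - e * x 1 + e * u) = I * ex (-(e * x 1)) * cj e (ex u) := by
        rw [cj_ex he, ← ex_quarter, ← ex_add, ← ex_add]
        congr 1
      have e2 : (ε : ℂ) * ‖Z‖ * cj e (ex u) = cj e (ε * Z) := by
        conv_rhs => rw [← hZu]
        rw [cj_mul, cj_mul, cj_real, cj_real]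
        ring
      have e3 : (ε : ℂ) * Z = cj e (-I * p) * ex (x 1) := by
        rw [hZ]
        push_cast
        rw [← mul_assoc, mul_inv_cancel₀ hε0, one_mul]
      rw [e1]
      calc (ε : ℂ) * ‖Z‖ * (I * ex (-(e * x 1)) * cj e (ex u))
          = I * ex (-(e * x 1)) * ((ε : ℂ) * ‖Z‖ * cj e (ex u)) := by ring
        _ = I * ex (-(e * x 1)) * (-I * p * ex (e * x 1)) := by
            rw [e2, e3, cj_mul, cj_cj, cj_ex he]
        _ = (I * -I) * (ex (-(e * x 1)) * ex (e * x 1)) * p := by ring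
        _ = p := by
            rw [← ex_add, neg_add_cancel, ex_zero, mul_neg, Complex.I_mul_I]; ring
    rw [hPp] at hg
    have hpr : p.re = x 0 - a - 1 / 2 := by simp [hpd]
    have hpi : p.im = t - 1 / 2 := by simp [hpd]
    rw [hpr, hpi] at hg
    rw [hg, show (1 : ℝ) / 2 + (t - 1 / 2) = t by ring]
    have h6 := D.B_per (pt (x 0) u (x 2)) t ![-a, 0, 0] ht1 ht2 h4
      (by rintro ⟨e1, b, hb⟩; rw [pt_zero'] at hb; exact hT ⟨e1, b, hb⟩)
    rw [← h6]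
    congr 2
    ext i; fin_cases i <;> simp [vec, pt]
    ring

/-- a shear in the direction of `x 1` depending on `x 0` and `t` -/
theorem shear_ld {a : ℝ × ℝ → ℝ} {x : E3} {t c : ℝ}
    (ha : ∀ᶠ w in 𝓝 (x 0, t), ContDiffAt ℝ ∞ a w) :
    IsLocalDiffeomorphAt 𝓘(ℝ, E3 × ℝ) 𝓘(ℝ, E3 × ℝ) ∞
      (fun q : E3 × ℝ => (pt (q.1 0) (q.1 1 + c * a (q.1 0, q.2)) (q.1 2), q.2)) (x, t) := by
  set p0 : (E3 × ℝ) →L[ℝ] ℝ := (EuclideanSpace.proj (0 : Fin 3) : E3 →L[ℝ] ℝ).comp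
    (ContinuousLinearMap.fst ℝ E3 ℝ) with hp0
  set p1 : (E3 × ℝ) →L[ℝ] ℝ := (EuclideanSpace.proj (1 : Fin 3) : E3 →L[ℝ] ℝ).comp
    (ContinuousLinearMap.fst ℝ E3 ℝ) with hp1
  set p2 : (E3 × ℝ) →L[ℝ] ℝ := (EuclideanSpace.proj (2 : Fin 3) : E3 →L[ℝ] ℝ).comp
    (ContinuousLinearMap.fst ℝ E3 ℝ) with hp2
  set p3 : (E3 × ℝ) →L[ℝ] ℝ := ContinuousLinearMap.snd ℝ E3 ℝ with hp3
  set Φ : E3 × ℝ → ℝ × ℝ × ℝ × ℝ := fun q => (p0 q, p1 q + c * a (p0 q, p3 q), p2 q, p3 q) with hΦ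
  have hcont : Tendsto (fun q : E3 × ℝ => (p0 q, p3 q)) (𝓝 (x, t)) (𝓝 (x 0, t)) :=
    ((p0.continuous.prodMk p3.continuous).tendsto (x, t))
  have hloc : IsLocalDiffeomorphAt 𝓘(ℝ, E3 × ℝ) 𝓘(ℝ, ℝ × ℝ × ℝ × ℝ) ∞ Φ (x, t) := by
    apply ld_of_fderiv
    · filter_upwards [hcont.eventually ha] with q hq
      have h1 : ContDiffAt ℝ ∞ (fun q : E3 × ℝ => a (p0 q, p3 q)) q :=
        ContDiffAt.comp q (g := a) (f := fun q : E3 × ℝ => (p0 q, p3 q)) hq
          ((p0.contDiff.prodMk p3.contDiff).contDiffAt)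
      exact p0.contDiff.contDiffAt.prodMk ((p1.contDiff.contDiffAt.add
        (contDiffAt_const.mul h1)).prodMk (p2.contDiff.contDiffAt.prodMk p3.contDiff.contDiffAt))
    · simp
    · intro v hv
      have hda : HasFDerivAt a (fderiv ℝ a (x 0, t)) (x 0, t) :=
        (ha.self_of_nhds.differentiableAt (by simp)).hasFDerivAt
      have hpair : HasFDerivAt (fun q : E3 × ℝ => (p0 q, p3 q)) (p0.prod p3) (x, t) :=
        (p0.hasFDerivAt).prodMk (p3.hasFDerivAt)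
      have hda' : HasFDerivAt (fun q : E3 × ℝ => a (p0 q, p3 q))
          ((fderiv ℝ a (x 0, t)).comp (p0.prod p3)) (x, t) :=
        HasFDerivAt.comp (x, t) (f := fun q : E3 × ℝ => (p0 q, p3 q)) (g := a) hda hpair
      have hd : HasFDerivAt Φ (p0.prod ((p1 + c • (fderiv ℝ a (x 0, t)).comp (p0.prod p3)).prod
          (p2.prod p3))) (x, t) :=
        (p0.hasFDerivAt).prodMk ((p1.hasFDerivAt.add (hda'.const_mul c)).prodMk
          ((p2.hasFDerivAt).prodMk (p3.hasFDerivAt)))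
      rw [hd.fderiv] at hv
      have e0 : p0 v = 0 := congrArg (fun z : ℝ × ℝ × ℝ × ℝ => z.1) hv
      have e1 : p1 v + c * (fderiv ℝ a (x 0, t)) (p0 v, p3 v) = 0 :=
        congrArg (fun z : ℝ × ℝ × ℝ × ℝ => z.2.1) hv
      have e2 : p2 v = 0 := congrArg (fun z : ℝ × ℝ × ℝ × ℝ => z.2.2.1) hv
      have e3 : p3 v = 0 := congrArg (fun z : ℝ × ℝ × ℝ × ℝ => z.2.2.2) hv
      have e4 : p1 v = 0 := by
        rw [e0, e3] at e1
        have : ((0 : ℝ), (0 : ℝ)) = (0 : ℝ × ℝ) := rfl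
        rw [this, map_zero, mul_zero, add_zero] at e1
        exact e1
      apply Prod.ext
      · ext i
        fin_cases i
        · exact e0
        · exact e4
        · exact e2
      · exact e3
  have h2 := (ld_of_perm HHb_eqv_smooth HHb_eqv_symm_smooth (Φ (x, t)))
  exact IsLocalDiffeomorphAt.comp (hf := hloc) (hg := h2) ..

theorem isLat_pt_iff' {y u n : ℝ} (h : ∀ m : ℤ, y ≠ m) : ¬ IsLat (pt y u n) := by
  rw [isLat_pt]
  rintro ⟨⟨m, hm⟩, -⟩
  exact h m hm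

theorem QG_loc (D : QD κ ε k e X) (he : e = 1 ∨ e = -1) (hε : 0 < ε) (hε' : ε ≤ 1 / 1000)
    {x : E3} {t : ℝ} (hx : ¬ IsLat x) (ht : -(1 / 8) < t) (ht' : t < 9 / 8) :
    IsLocalDiffeomorphAt 𝓘(ℝ, E3 × ℝ) (𝓡 4) ∞ (QG D) (x, t) := by
  by_cases hnp : NP (x 0) t
  · obtain ⟨a, ha1, ha2⟩ := exists_arg (V := ℝ × ℝ) (om := fun w => FL w.1 w.2) (v := (x 0, t))
      (Eventually.of_forall (fun w => FL_smooth.contDiffAt)) (FL_ne hnp)
    have hcx : Tendsto (fun q : E3 × ℝ => (q.1 0, q.2)) (𝓝 (x, t)) (𝓝 (x 0, t)) := by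
      have : Continuous fun q : E3 × ℝ => (q.1 0, q.2) := by fun_prop
      exact this.tendsto (x, t)
    have h1 := shear_ld (x := x) (t := t) (c := (e : ℝ)) ha1
    have hT : ¬ OnT x t := (np_iff x t).1 hnp
    have hFx : FL (x 0) t = (‖FL (x 0) t‖ : ℝ) * ex (a (x 0, t)) := ha2.self_of_nhds
    obtain ⟨-, h4⟩ := QG_branch D ht ht' hx hnp (norm_pos_iff.2 (FL_ne hnp)) hFx
    have h2 : IsLocalDiffeomorphAt 𝓘(ℝ, E3 × ℝ) (𝓡 4) ∞ D.B
        (pt (x 0) (x 1 + e * a (x 0, t)) (x 2), t) := by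
      apply D.B_loc _ _ ht ht' h4
      rintro ⟨e1, b, hb⟩
      rw [pt_zero'] at hb
      exact hT ⟨e1, b, hb⟩
    have h3 := IsLocalDiffeomorphAt.comp (hf := h1) (hg := h2) (𝓡 4) X
    refine ld_congr h3 ?_
    have hcl : ∀ᶠ q : E3 × ℝ in 𝓝 (x, t), ¬ IsLat q.1 := by
      have : ∀ᶠ x' : E3 in 𝓝 x, ¬ IsLat x' := isClosed_isLat.isOpen_compl.mem_nhds hx
      exact (continuous_fst.tendsto (x, t)).eventually this
    have htt : ∀ᶠ q : E3 × ℝ in 𝓝 (x, t), -(1 / 8) < q.2 ∧ q.2 < 9 / 8 := by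
      have : ∀ᶠ t' : ℝ in 𝓝 t, -(1 / 8) < t' ∧ t' < 9 / 8 := Ioo_mem_nhds ht ht'
      exact (continuous_snd.tendsto (x, t)).eventually this
    have hne : ∀ᶠ q : E3 × ℝ in 𝓝 (x, t), FL (q.1 0) q.2 ≠ 0 := by
      have hc : ContinuousAt (fun w : ℝ × ℝ => FL w.1 w.2) (x 0, t) :=
        FL_smooth.continuous.continuousAt
      exact hcx.eventually (hc.eventually_ne (FL_ne hnp))
    filter_upwards [hcl, htt, hne, hcx.eventually ha2] with q q1 q2 q3 q4
    obtain ⟨y, s⟩ := q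
    have q5 : NP (y 0) s := by
      rintro ⟨e1, e2⟩
      apply q3
      show FL (y 0) s = 0
      rw [FL_mid (by rw [e1]; norm_num) (by rw [e2]; norm_num), e1, e2]
      simp
    exact (QG_branch D q2.1 q2.2 q1 q5 (norm_pos_iff.2 q3) q4).1
  · -- puncture
    have hn : t = 1 / 2 ∧ Int.fract (x 0) = 1 / 2 := by
      unfold NP at hnp; rwa [not_not] at hnp
    obtain ⟨e1, e2⟩ := hn
    set a := ⌊x 0⌋ with ha
    have e3 : x 0 - a - 1 / 2 = 0 := by
      have := Int.floor_add_fract (x 0)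
      rw [e2] at this
      rw [ha]
      linarith
    have h1 : IsLocalDiffeomorphAt 𝓘(ℝ, E3 × ℝ) 𝓘(ℝ, ℝ × ℝ × ℂ) ∞ (psi e he ε hε a) (x, t) :=
      ld_of_perm (psi_smooth e he ε hε a) (psi_symm_smooth e he ε hε a) _
    have hz : ((x 0 - a - 1 / 2 : ℝ) : ℂ) + ((t - 1 / 2 : ℝ) : ℂ) * I = 0 := by
      rw [e3, e1]; simp
    have h2 : IsLocalDiffeomorphAt 𝓘(ℝ, ℝ × ℝ × ℂ) (𝓡 4) ∞ D.jT (psi e he ε hε a (x, t)) := by
      rw [psi_apply]
      apply D.jT_loc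
      rw [hz]
      simp
    have h3 := IsLocalDiffeomorphAt.comp (hf := h1) (hg := h2) (𝓡 4) X
    refine ld_congr h3 ?_
    have hc : Continuous fun q : E3 × ℝ =>
        ‖((q.1 0 - a - 1 / 2 : ℝ) : ℂ) + ((q.2 - 1 / 2 : ℝ) : ℂ) * I‖ := by fun_prop
    have hev : ∀ᶠ q : E3 × ℝ in 𝓝 (x, t),
        ‖((q.1 0 - a - 1 / 2 : ℝ) : ℂ) + ((q.2 - 1 / 2 : ℝ) : ℂ) * I‖ < 5 * ε := by
      apply (hc.tendsto (x, t)).eventually_lt_const
      show ‖((x 0 - a - 1 / 2 : ℝ) : ℂ) + ((t - 1 / 2 : ℝ) : ℂ) * I‖ < 5 * ε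
      rw [hz, norm_zero]
      positivity
    filter_upwards [hev] with q hq
    obtain ⟨y, s⟩ := q
    exact QG_psi D he hε hε' hq

end

end Pool.Agent.TSQ
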