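import Pool.Agent.TSQ.Tw

/-!
# TSQ/Psi: the coordinates near the punctures
-/

open scoped Manifold ContDiff Topology
open Complex (I)
open Set Filter

namespace Pool.Agent.TSQ
open Pool.Agent.CSG Pool.Agent.TS

open Classical in
/-- identity or conjugation -/
noncomputable def cj (e : ℤ) : ℂ ≃L[ℝ] ℂ :=
  if e = 1 then ContinuousLinearEquiv.refl ℝ ℂ else Complex.conjCLE

theorem cj_norm (e : ℤ) (z : ℂ) : ‖cj e z‖ = ‖z‖ := by
  unfold cj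
  split_ifs
  · rfl
  · exact Complex.norm_conj z

theorem cj_cj (e : ℤ) (z : ℂ) : cj e (cj e z) = z := by
  unfold cj
  split_ifs
  · rfl
  · show (starRingEnd ℂ) ((starRingEnd ℂ) z) = z
    rw [Complex.conj_conj]

theorem cj_mul (e : ℤ) (z w : ℂ) : cj e (z * w) = cj e z * cj e w := by
  unfold cj
  split_ifs
  · rfl
  · show (starRingEnd ℂ) (z * w) = (starRingEnd ℂ) z * (starRingEnd ℂ) w
    rw [map_mul]

theorem cj_real (e : ℤ) (a : ℝ) : cj e a = a := by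
  unfold cj
  split_ifs
  · rfl
  · show (starRingEnd ℂ) (a : ℂ) = a
    rw [Complex.conj_ofReal]

theorem cj_ex {e : ℤ} (he : e = 1 ∨ e = -1) (a : ℝ) : cj e (ex a) = ex (e * a) := by
  rcases he with rfl | rfl
  · simp [cj]
  · have : cj (-1) (ex a) = (starRingEnd ℂ) (ex a) := by
      unfold cj
      rw [if_neg (by norm_num)]
      rfl
    rw [this, ← ex_neg]
    push_cast
    rw [neg_one_mul]

theorem e_sq {e : ℤ} (he : e = 1 ∨ e = -1) : (e : ℝ) * e = 1 := by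
  rcases he with rfl | rfl <;> norm_num

/-- the coordinates near the punctures; `p = (x 0 - a - 1/2) + i (t - 1/2)` -/
noncomputable def psi (e : ℤ) (he : e = 1 ∨ e = -1) (ε : ℝ) (hε : 0 < ε) (a : ℤ) :
    (E3 × ℝ) ≃ (ℝ × ℝ × ℂ) where
  toFun q := (1 / 4 - e * q.1 1, q.1 2,
    (ε⁻¹ : ℝ) * (cj e (-I * (((q.1 0 - a - 1 / 2 : ℝ) : ℂ) + ((q.2 - 1 / 2 : ℝ) : ℂ) * I)) * ex (q.1 1)))
  invFun w := (pt (a + 1 / 2 + (I * cj e (ε * w.2.2 * ex (-(e * (1 / 4 - w.1))))).re)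
    (e * (1 / 4 - w.1)) w.2.1, 1 / 2 + (I * cj e (ε * w.2.2 * ex (-(e * (1 / 4 - w.1))))).im)
  left_inv q := by
    have h1 : (e : ℝ) * (1 / 4 - (1 / 4 - e * q.1 1)) = q.1 1 := by
      rw [sub_sub_cancel, ← mul_assoc, e_sq he, one_mul]
    set P : ℂ := ((q.1 0 - a - 1 / 2 : ℝ) : ℂ) + ((q.2 - 1 / 2 : ℝ) : ℂ) * I with hP
    have hε' : (ε : ℂ) ≠ 0 := by exact_mod_cast hε.ne'
    have h2 : I * cj e (ε * ((ε⁻¹ : ℝ) * (cj e (-I * P) * ex (q.1 1))) * ex (-(q.1 1))) = P := by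
      have h3 : (ε : ℂ) * ((ε⁻¹ : ℝ) * (cj e (-I * P) * ex (q.1 1))) * ex (-(q.1 1)) =
          cj e (-I * P) := by
        have h4 : ex (q.1 1) * ex (-(q.1 1)) = 1 := by rw [← ex_add, add_neg_cancel, ex_zero]
        push_cast
        calc (ε : ℂ) * ((ε : ℂ)⁻¹ * (cj e (-I * P) * ex (q.1 1))) * ex (-(q.1 1))
            = (ε * (ε : ℂ)⁻¹) * cj e (-I * P) * (ex (q.1 1) * ex (-(q.1 1))) := by ring
          _ = _ := by rw [h4, mul_inv_cancel₀ hε']; ring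
      rw [h3, cj_cj, ← mul_assoc, mul_neg, Complex.I_mul_I]
      ring
    show (pt (a + 1 / 2 + (I * cj e (ε * ((ε⁻¹ : ℝ) * (cj e (-I * P) * ex (q.1 1))) *
      ex (-(e * (1 / 4 - (1 / 4 - e * q.1 1)))))).re) (e * (1 / 4 - (1 / 4 - e * q.1 1))) (q.1 2),
      1 / 2 + (I * cj e (ε * ((ε⁻¹ : ℝ) * (cj e (-I * P) * ex (q.1 1))) *
      ex (-(e * (1 / 4 - (1 / 4 - e * q.1 1)))))).im) = q
    rw [h1, h2]
    have h5 : P.re = q.1 0 - a - 1 / 2 := by rw [hP]; simp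
    have h6 : P.im = q.2 - 1 / 2 := by rw [hP]; simp
    rw [h5, h6]
    apply Prod.ext
    · show pt (a + 1 / 2 + (q.1 0 - a - 1 / 2)) (q.1 1) (q.1 2) = q.1
      rw [show (a : ℝ) + 1 / 2 + (q.1 0 - a - 1 / 2) = q.1 0 by ring, pt_eta]
    · show 1 / 2 + (q.2 - 1 / 2) = q.2
      ring
  right_inv w := by
    obtain ⟨q, y, Z⟩ := w
    set Q : ℂ := I * cj e (ε * Z * ex (-(e * (1 / 4 - q)))) with hQ
    show ((1 / 4 - e * (pt (a + 1 / 2 + Q.re) (e * (1 / 4 - q)) y) 1 : ℝ),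
      ((pt (a + 1 / 2 + Q.re) (e * (1 / 4 - q)) y) 2 : ℝ),
      ((ε⁻¹ : ℝ) : ℂ) * (cj e (-I * ((((pt (a + 1 / 2 + Q.re) (e * (1 / 4 - q)) y) 0 - a - 1 / 2 : ℝ) : ℂ) +
        ((1 / 2 + Q.im - 1 / 2 : ℝ) : ℂ) * I)) *
        ex ((pt (a + 1 / 2 + Q.re) (e * (1 / 4 - q)) y) 1))) = (q, y, Z)
    rw [pt_zero', pt_one', pt_two']
    have h1 : 1 / 4 - (e : ℝ) * (e * (1 / 4 - q)) = q := by
      rw [← mul_assoc, e_sq he]; ring
    have h2 : (((a + 1 / 2 + Q.re - a - 1 / 2 : ℝ) : ℂ) + ((1 / 2 + Q.im - 1 / 2 : ℝ) : ℂ) * I) = Q := by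
      apply Complex.ext
      · simp
        ring
      · simp
    rw [h1, h2]
    have hε' : (ε : ℂ) ≠ 0 := by exact_mod_cast hε.ne'
    have h3 : -I * Q = cj e (ε * Z * ex (-(e * (1 / 4 - q)))) := by
      rw [hQ, ← mul_assoc, neg_mul, Complex.I_mul_I]; ring
    rw [h3, cj_cj]
    have h4 : ex (-(e * (1 / 4 - q))) * ex (e * (1 / 4 - q)) = 1 := by
      rw [← ex_add, neg_add_cancel, ex_zero]
    have h5 : ((ε⁻¹ : ℝ) : ℂ) * (ε * Z * ex (-(e * (1 / 4 - q))) * ex (e * (1 / 4 - q))) = Z := by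
      push_cast
      calc (ε : ℂ)⁻¹ * (ε * Z * ex (-(e * (1 / 4 - q))) * ex (e * (1 / 4 - q)))
          = ((ε : ℂ)⁻¹ * ε) * Z * (ex (-(e * (1 / 4 - q))) * ex (e * (1 / 4 - q))) := by ring
        _ = _ := by rw [h4, inv_mul_cancel₀ hε']; ring
    rw [h5]

theorem psi_apply (e : ℤ) (he : e = 1 ∨ e = -1) (ε : ℝ) (hε : 0 < ε) (a : ℤ) (x : E3) (t : ℝ) :
    psi e he ε hε a (x, t) = (1 / 4 - e * x 1, x 2, (ε⁻¹ : ℝ) *
      (cj e (-I * (((x 0 - a - 1 / 2 : ℝ) : ℂ) + ((t - 1 / 2 : ℝ) : ℂ) * I)) * ex (x 1))) := rfl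

theorem psi_smooth (e : ℤ) (he : e = 1 ∨ e = -1) (ε : ℝ) (hε : 0 < ε) (a : ℤ) :
    ContDiff ℝ ∞ (psi e he ε hε a) := by
  have hc : ∀ i : Fin 3, ContDiff ℝ ∞ fun q : E3 × ℝ => q.1 i := fun i =>
    (FunBasic_coord i).comp contDiff_fst
  have hI : ContDiff ℝ ∞ fun q : E3 × ℝ =>
      (((q.1 0 - a - 1 / 2 : ℝ) : ℂ) + ((q.2 - 1 / 2 : ℝ) : ℂ) * I) := by
    apply ContDiff.add
    · exact Complex.ofRealCLM.contDiff.comp (((hc 0).sub contDiff_const).sub contDiff_const)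
    · exact (Complex.ofRealCLM.contDiff.comp (contDiff_snd.sub contDiff_const)).mul contDiff_const
  refine ContDiff.prodMk (contDiff_const.sub (contDiff_const.mul (hc 1))) (ContDiff.prodMk (hc 2) ?_)
  refine contDiff_const.mul (ContDiff.mul ?_ (ex_smooth.comp (hc 1)))
  exact (cj e).contDiff.comp (contDiff_const.mul hI)

theorem psi_symm_smooth (e : ℤ) (he : e = 1 ∨ e = -1) (ε : ℝ) (hε : 0 < ε) (a : ℤ) :
    ContDiff ℝ ∞ (psi e he ε hε a).symm := by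
  have hq : ContDiff ℝ ∞ fun w : ℝ × ℝ × ℂ => w.1 := contDiff_fst
  have hy : ContDiff ℝ ∞ fun w : ℝ × ℝ × ℂ => w.2.1 := contDiff_fst.comp contDiff_snd
  have hZ : ContDiff ℝ ∞ fun w : ℝ × ℝ × ℂ => w.2.2 := contDiff_snd.comp contDiff_snd
  have hQ : ContDiff ℝ ∞ fun w : ℝ × ℝ × ℂ =>
      I * cj e (ε * w.2.2 * ex (-(e * (1 / 4 - w.1)))) := by
    refine contDiff_const.mul ((cj e).contDiff.comp ?_)
    exact (contDiff_const.mul hZ).mul (ex_smooth.comp (contDiff_const.mul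
      (contDiff_const.sub hq)).neg)
  have hre : ContDiff ℝ ∞ fun w : ℝ × ℝ × ℂ =>
      (I * cj e (ε * w.2.2 * ex (-(e * (1 / 4 - w.1))))).re := Complex.reCLM.contDiff.comp hQ
  have him : ContDiff ℝ ∞ fun w : ℝ × ℝ × ℂ =>
      (I * cj e (ε * w.2.2 * ex (-(e * (1 / 4 - w.1))))).im := Complex.imCLM.contDiff.comp hQ
  show ContDiff ℝ ∞ fun w : ℝ × ℝ × ℂ =>
    (pt (a + 1 / 2 + (I * cj e (ε * w.2.2 * ex (-(e * (1 / 4 - w.1))))).re)
    (e * (1 / 4 - w.1)) w.2.1, 1 / 2 + (I * cj e (ε * w.2.2 * ex (-(e * (1 / 4 - w.1))))).im)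
  refine ContDiff.prodMk ?_ (contDiff_const.add him)
  exact UNQ.contDiff_pt (contDiff_const.add hre) (contDiff_const.mul (contDiff_const.sub hq)) hy

end Pool.Agent.TSQ
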