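import Pool.Agent.TSQ.QDof

/-!
# TSQ/PtoQ: `PD` and the local theorem give `QD`
-/

open scoped Manifold ContDiff Topology
open Complex (I)
open Set Filter

namespace Pool.Agent.TSQ
open Pool.Agent.CSG Pool.Agent.TS

section
variable {X : Type*} [TopologicalSpace X] [ChartedSpace E4 X] {κ : Equiv.Perm E3}
  {ε ρ δ : ℝ} {k e : ℤ}

variable {D : PD κ ε k e X} {hκ : AxMono κ δ} {hε : 0 < ε} {hε' : ε ≤ 1 / 1000}
    {hρ : ρ ≤ 1 / 8} {hρδ : ρ ≤ δ} {L' : LS ε ρ k e X}

/-- points of the region `Rg` are covered -/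
theorem Rg_cover (hL : SwapOf D hκ hε hε' hρ hρδ L') (h5 : 5 * ε < ρ) {a : X} (ha : a ∈ L'.Rg) :
    (∃ Y, a = L'.jK (Y, 0)) ∨ (∃ q y, a = L'.jT (q, y, 0)) ∨
    ∃ x t, ¬ IsLat x ∧ ¬ OnT x t ∧ 0 ≤ t ∧ t < 1 ∧ a = BB D L' (x, t) := by
  rcases ha with ⟨p, r, h1, hp, hr, h2⟩ | ⟨Y, hY⟩ | ⟨q, y, hq⟩
  · right; right
    set t := Int.fract (1 / 2 + p.im) with ht
    have f0 := Int.fract_nonneg (1 / 2 + p.im)
    have f1 := Int.fract_lt_one (1 / 2 + p.im)
    have f2 := Int.floor_add_fract (1 / 2 + p.im)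
    rw [← ht] at f0 f1 f2
    set x := xc r p with hx
    have hPx : Pc x = r := Pc_xc r p
    have hRx : p = Rc x t + (((0 : ℤ) : ℂ) + (⌊1 / 2 + p.im⌋ : ℂ) * I) := by
      apply Complex.ext
      · rw [Complex.add_re, Rc_re, hx, xc_zero]
        simp
      · rw [Complex.add_im, Rc_im]
        simp only [Complex.add_im, Complex.mul_im, Complex.I_im, Complex.I_re, Complex.intCast_im,
          Complex.intCast_re]
        linarith
    have hfr : fr p = fr (Rc x t) := by
      conv_lhs => rw [hRx]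
      exact fr_add (GI_mk _ _)
    have hW : (Rc x t, Pc x) ∈ Wd ρ := by
      rw [hPx]
      rcases h1 with h | h
      · left; show ‖fr (Rc x t)‖ < ρ; rw [← hfr]; linarith
      · right; show ‖fr r‖ < ρ; linarith
    have hG : L'.G (p, r) = L'.G (Rc x t, Pc x) := by
      have := L'.G_per (Rc x t) (Pc x) _ 0 hW (GI_mk 0 ⌊1 / 2 + p.im⌋) GI_zero
      rw [add_zero, ← hRx, hPx] at this
      rw [this, hPx]
    have hRG : Rc x t ∉ GI := by
      intro h
      apply hp
      rw [hRx]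
      exact GI_add h (GI_mk _ _)
    refine ⟨x, t, ?_, ?_, f0, f1, ?_⟩
    · intro h
      apply hr
      have h3 := (onCK_Rc (x := x) (t := t)).2 h
      rw [hPx] at h3
      refine ⟨h3.1, ?_⟩
      obtain ⟨-, b, hb⟩ := h3
      refine ⟨b, ?_⟩
      rw [hRx, Complex.add_re, hb]
      simp
    · intro h
      exact hRG ((Rc_mem (by linarith) (by linarith)).2 h)
    · rw [h2, hG, BB_near hL hW (by linarith) (by linarith)]
  · exact Or.inl ⟨Y, hY⟩
  · exact Or.inr (Or.inl ⟨q, y, hq⟩)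

/-- the swapped structure -/
noncomputable def toQD (hL : SwapOf D hκ hε hε' hρ hρδ L') (h5 : 5 * ε < ρ) : QD κ ε k e X where
  B := BB D L'
  jK := L'.jK
  jT := L'.jT
  B_loc x t ht ht' hx hT := BB_loc hL h5 ht ht' hx hT
  B_per x t m ht ht' hx hT := BB_per hε h5 m ht ht'
  B_mon x t ht ht' hx := BB_mon hκ hε hρδ hρ h5 ht ht'
  B_inj x y s t hx hs hy ht a b c d h := BB_inj hL h5 hx hs hy ht a b c d h
  jK_loc := L'.jK_loc
  jK_inj := L'.jK_inj
  jT_per := L'.jT_per
  jT_loc := L'.jT_loc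
  jT_inj := L'.jT_inj
  glueK Y t s ht ht' hs hs1 := by
    have hg := L'.glueK Y (t - 1 / 2) s hs hs1
    rw [hg]
    set w : ℂ := ε * s * ex (k * thc (t - 1 / 2)) * yc Y with hw
    have hyc : ‖yc Y‖ ≤ 1 := yc_norm_le Y
    have hwn : ‖w‖ ≤ ε := by
      rw [hw, norm_mul, norm_mul, norm_mul, ex_norm, Complex.norm_real, Complex.norm_real,
        Real.norm_of_nonneg hε.le, Real.norm_of_nonneg hs.le]
      have : s * ‖yc Y‖ ≤ 1 := by nlinarith [norm_nonneg (yc Y)]
      nlinarith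
    set x := pt (ε * s * (Y : E3) 0) w.im w.re with hx
    have hP : Pc x = w := by
      apply Complex.ext
      · rw [Pc_re, hx, pt_two']
      · rw [Pc_im, hx, pt_one']
    have hR : ((1 / 2 + ε * s * (Y : E3) 0 : ℝ) : ℂ) + ((t - 1 / 2 : ℝ) : ℂ) * I = Rc x t + ((1 : ℤ) : ℂ) := by
      unfold Rc
      rw [hx, pt_zero']
      push_cast
      ring
    have hfw : ‖fr (Pc x)‖ < ρ := by
      rw [hP, fr_self' (by linarith)]
      linarith
    have hW : (Rc x t, Pc x) ∈ Wd ρ := Or.inr hfw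
    rw [BB_near hL hW ht ht', hR, ← hP]
    have := L'.G_per (Rc x t) (Pc x) _ 0 hW (GI_int 1) GI_zero
    rw [add_zero] at this
    exact this
  glueT q y u s hs hs5 := by
    have hg := L'.glueT q y u s hs hs5
    rw [hg]
    set P : ℂ := ε * s * ex (q + e * u) with hP
    have hPn : ‖P‖ = ε * s := by
      rw [hP, norm_mul, norm_mul, ex_norm, Complex.norm_real, Complex.norm_real,
        Real.norm_of_nonneg hε.le, Real.norm_of_nonneg hs.le, mul_one]
    have hPρ : ‖P‖ < ρ := by rw [hPn]; nlinarith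
    have hPi := Complex.abs_im_le_norm P
    rw [abs_le] at hPi
    set x := pt (1 / 2 + P.re) u y with hx
    have hR : Rc x (1 / 2 + P.im) = P := by
      apply Complex.ext
      · rw [Rc_re, hx, pt_zero']; ring
      · rw [Rc_im]; ring
    have hPx : Pc x = (y : ℝ) + (u : ℝ) * I := by
      apply Complex.ext
      · rw [Pc_re, hx, pt_two']; simp
      · rw [Pc_im, hx, pt_one']; simp
    have hW : (Rc x (1 / 2 + P.im), Pc x) ∈ Wd ρ := by
      left
      show ‖fr (Rc x (1 / 2 + P.im))‖ < ρ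
      rw [hR, fr_self' (by linarith)]
      exact hPρ
    rw [BB_near hL hW (by linarith) (by linarith), hR, hPx]
  disjK Y x t hx hT ht ht' := by
    by_cases h3 : ‖fr (Rc x t)‖ < 3 * ε ∨ ‖fr (Pc x)‖ < 3 * ε
    · have hW : (Rc x t, Pc x) ∈ Wd ρ := by
        rcases h3 with h | h
        · left; show ‖fr (Rc x t)‖ < ρ; linarith
        · right; show ‖fr (Pc x)‖ < ρ; linarith
      rw [BB_near hL hW (by linarith) (by linarith)]
      exact L'.disjK _ _ _ hW (fun h => hT ((Rc_mem (by linarith) (by linarith)).1 h))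
        (fun h => hx (onCK_Rc.1 h))
    · push Not at h3
      rw [BB_far hL h5 h3.1 h3.2 (by linarith) (by linarith)]
      intro h
      refine H_notRg (D := D) (hκ := hκ) (hε := hε) (hε' := hε') (hρ := hρ) (hρδ := hρδ) ht ht'
        h3.1 h3.2 ?_
      rw [← h, ← hL.rg]
      exact Or.inr (Or.inl ⟨Y, rfl⟩)
  disjT q y x t hx hT ht ht' := by
    by_cases h3 : ‖fr (Rc x t)‖ < 3 * ε ∨ ‖fr (Pc x)‖ < 3 * ε
    · have hW : (Rc x t, Pc x) ∈ Wd ρ := by
        rcases h3 with h | h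
        · left; show ‖fr (Rc x t)‖ < ρ; linarith
        · right; show ‖fr (Pc x)‖ < ρ; linarith
      rw [BB_near hL hW (by linarith) (by linarith)]
      exact L'.disjT _ _ _ _ hW (fun h => hT ((Rc_mem (by linarith) (by linarith)).1 h))
        (fun h => hx (onCK_Rc.1 h))
    · push Not at h3
      rw [BB_far hL h5 h3.1 h3.2 (by linarith) (by linarith)]
      intro h
      refine H_notRg (D := D) (hκ := hκ) (hε := hε) (hε' := hε') (hρ := hρ) (hρδ := hρδ) ht ht'
        h3.1 h3.2 ?_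
      rw [← h, ← hL.rg]
      exact Or.inr (Or.inr ⟨q, y, rfl⟩)
  disjKT Y q y := L'.disjKT _ _ _
  cover a := by
    rcases D.cover a with ⟨θ, x₀, h⟩ | ⟨y, h⟩ | ⟨x, t, hx, hc, ht, ht', h⟩
    · apply Rg_cover hL h5
      rw [hL.rg]
      refine Or.inr (Or.inr ⟨θ, x₀ - 1 / 2, ?_⟩)
      show a = D.jb (θ, x₀ - 1 / 2 + 1 / 2, 0)
      rw [sub_add_cancel]; exact h
    · apply Rg_cover hL h5
      rw [hL.rg]
      exact Or.inr (Or.inl ⟨y, h⟩)
    · by_cases h3 : ‖fr (Rc x t)‖ < 3 * ε ∨ ‖fr (Pc x)‖ < 3 * ε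
      · apply Rg_cover hL h5
        rw [hL.rg]
        have hW : (Pc x, Rc x t) ∈ Wd ρ := by
          rcases h3 with h | h
          · right; show ‖fr (Rc x t)‖ < ρ; linarith
          · left; show ‖fr (Pc x)‖ < ρ; linarith
        refine Or.inl ⟨Pc x, Rc x t, h3.symm, ?_, ?_, ?_⟩
        · rw [Pc_mem, not_not]; exact hx
        · rintro ⟨h6, a, h7⟩
          apply hc
          rw [Rc_mem (by linarith) (by linarith)] at h6
          rw [Pc_re] at h7
          exact ⟨h6.1, h6.2, a, h7⟩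
        · rw [h]
          exact (Gl_H D hκ hρδ hρ hW hx (by linarith) (by linarith)).symm
      · push Not at h3
        right; right
        refine ⟨x, t, ?_, ?_, ht, ht', ?_⟩
        · intro hl
          apply hx
          rw [isLat_iff] at hl
          exact ⟨hl 1, hl 2⟩
        · intro hT
          exact fr_pos_notmem (by positivity) h3.1 ((Rc_mem (by linarith) (by linarith)).2 hT)
        · rw [h, BB_far hL h5 h3.1 h3.2 (by linarith) (by linarith)]

/-- `PD` and the local theorem give `QD`. -/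
theorem qd_of_pd (hsw : SwapStatement X) (D : PD κ ε k e X) (hκ : AxMono κ δ) (hε : 0 < ε)
    (hε' : ε ≤ 1 / 1000) (hδ : 5 * ε < δ) : Nonempty (QD κ ε k e X) := by
  have h1 : 5 * ε < min δ (1 / 8) := lt_min hδ (by linarith)
  obtain ⟨L', h2, h3⟩ := hsw ε (min δ (1 / 8)) e k hε hε' h1 (min_le_right _ _)
    (toLS D hκ hε hε' (min_le_right _ _) (min_le_left _ _))
  exact ⟨toQD (D := D) (hκ := hκ) (hε := hε) (hε' := hε') (hρ := min_le_right _ _)
    (hρδ := min_le_left _ _) (L' := L') ⟨h2, h3⟩ h1⟩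

end

end Pool.Agent.TSQ
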