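import Pool.Agent.TSQ.LSof
import Pool.Agent.TS.QDef

/-!
# TSQ/QDof: `PD` and the local theorem give `QD`
-/

open scoped Manifold ContDiff Topology
open Complex (I)
open Set Filter

namespace Pool.Agent.TSQ
open Pool.Agent.CSG Pool.Agent.TS

/-- `t` in the time interval, the coordinate is a lattice point iff on the torus -/
theorem Rc_mem {x : E3} {t : ℝ} (ht : -(1 / 8) < t) (ht' : t < 9 / 8) : Rc x t ∈ GI ↔ OnT x t := by
  rw [mem_GI, Rc_re, Rc_im]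
  unfold OnT
  constructor
  · rintro ⟨⟨a, ha⟩, ⟨b, hb⟩⟩
    have h1 : (-1 : ℝ) < b := by linarith
    have h2 : (b : ℝ) < 1 := by linarith
    have h3 : -1 < b := by exact_mod_cast h1
    have h4 : b < 1 := by exact_mod_cast h2
    have h5 : b = 0 := by omega
    rw [h5] at hb
    push_cast at hb
    exact ⟨by linarith, a, by linarith⟩
  · rintro ⟨h1, a, ha⟩
    exact ⟨⟨a, by linarith⟩, ⟨0, by rw [h1]; simp⟩⟩

theorem onCK_Rc {x : E3} {t : ℝ} : OnCK (Rc x t) (Pc x) ↔ IsLat x := by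
  unfold OnCK
  rw [Rc_re, mem_GI, Pc_re, Pc_im]
  have h : IsLat x ↔ (∃ k : ℤ, x 0 = k) ∧ (∃ k : ℤ, x 1 = k) ∧ ∃ k : ℤ, x 2 = k := by
    conv_lhs => rw [← pt_eta x]
    exact isLat_pt
  rw [h]
  have h2 : (∃ a : ℤ, x 0 - 1 / 2 = a + 1 / 2) ↔ ∃ k : ℤ, x 0 = k := by
    constructor
    · rintro ⟨a, ha⟩; exact ⟨a + 1, by push_cast; linarith⟩
    · rintro ⟨a, ha⟩; exact ⟨a - 1, by push_cast; linarith⟩
  rw [h2]
  tauto

section
variable {X : Type*} [TopologicalSpace X] [ChartedSpace E4 X] {κ : Equiv.Perm E3}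
  {ε ρ δ : ℝ} {k e : ℤ}

theorem Gl_H (D : PD κ ε k e X) (hκ : AxMono κ δ) (hρδ : ρ ≤ δ) (hρ : ρ ≤ 1 / 8) {x : E3} {t : ℝ}
    (h : (Pc x, Rc x t) ∈ Wd ρ) (hx : OffAx x) (ht : -(1 / 8) < t) (ht' : t < 9 / 8) :
    Gl D (Pc x, Rc x t) = D.H (x, t) := by
  have h1 := Gl_key D hκ hρδ hρ h (by rw [Pc_mem, not_not]; exact hx) 0
    (by rw [Rc_im]; push_cast; linarith) (by rw [Rc_im]; push_cast; linarith)
  rw [h1, xc_PR, Rc_im]
  congr 2
  push_cast; ring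

theorem not_onC_of (x : E3) (t : ℝ) (h : Rc x t ∉ GI) : ¬ OnC x t := by
  rintro ⟨h1, ⟨a, ha⟩, -⟩
  apply h
  rw [mem_GI, Rc_re, Rc_im]
  exact ⟨⟨a, by linarith⟩, ⟨0, by rw [h1]; simp⟩⟩

open Classical in
/-- the new coordinates -/
noncomputable def BB (D : PD κ ε k e X) (L' : LS ε ρ k e X) (q : E3 × ℝ) : X :=
  if ‖fr (Rc q.1 q.2)‖ < 4 * ε ∨ ‖fr (Pc q.1)‖ < 4 * ε then L'.G (Rc q.1 q.2, Pc q.1) else D.H q

/-- the assumptions on `L'` -/
structure SwapOf (D : PD κ ε k e X) (hκ : AxMono κ δ) (hε : 0 < ε) (hε' : ε ≤ 1 / 1000)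
    (hρ : ρ ≤ 1 / 8) (hρδ : ρ ≤ δ) (L' : LS ε ρ k e X) : Prop where
  rg : L'.Rg = (toLS D hκ hε hε' hρ hρδ).Rg
  far : ∀ p r, (p, r) ∈ Wd ρ → 3 * ε ≤ ‖fr p‖ → 3 * ε ≤ ‖fr r‖ → L'.G (r, p) = Gl D (p, r)

variable {D : PD κ ε k e X} {hκ : AxMono κ δ} {hε : 0 < ε} {hε' : ε ≤ 1 / 1000}
    {hρ : ρ ≤ 1 / 8} {hρδ : ρ ≤ δ} {L' : LS ε ρ k e X}

theorem fr_pos_notmem {z : ℂ} {c : ℝ} (hc : 0 < c) (h : c ≤ ‖fr z‖) : z ∉ GI := by
  intro hz
  rw [← fr_eq_zero] at hz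
  rw [hz, norm_zero] at h
  linarith

theorem Wd_symm {ρ : ℝ} {p r : ℂ} : (p, r) ∈ Wd ρ ↔ (r, p) ∈ Wd ρ := by
  show (‖fr p‖ < ρ ∨ ‖fr r‖ < ρ) ↔ (‖fr r‖ < ρ ∨ ‖fr p‖ < ρ)
  exact or_comm

/-- `BB` near the tori -/
theorem BB_near (hL : SwapOf D hκ hε hε' hρ hρδ L') {x : E3} {t : ℝ}
    (h : (Rc x t, Pc x) ∈ Wd ρ) (ht : -(1 / 8) < t) (ht' : t < 9 / 8) :
    BB D L' (x, t) = L'.G (Rc x t, Pc x) := by
  unfold BB
  split_ifs with h1
  · rfl
  · push Not at h1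
    have hx : OffAx x := by
      have := fr_pos_notmem (by positivity) h1.2
      rwa [Pc_mem, not_not] at this
    rw [hL.far (Pc x) (Rc x t) (Wd_symm.1 h) (by linarith [h1.2]) (by linarith [h1.1]),
      Gl_H D hκ hρδ hρ (Wd_symm.1 h) hx ht ht']

/-- `BB` away from the tori -/
theorem BB_far (hL : SwapOf D hκ hε hε' hρ hρδ L') (h5 : 5 * ε < ρ) {x : E3} {t : ℝ}
    (h1 : 3 * ε ≤ ‖fr (Rc x t)‖) (h2 : 3 * ε ≤ ‖fr (Pc x)‖) (ht : -(1 / 8) < t) (ht' : t < 9 / 8) :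
    BB D L' (x, t) = D.H (x, t) := by
  have hx : OffAx x := by
    have := fr_pos_notmem (by positivity) h2
    rwa [Pc_mem, not_not] at this
  unfold BB
  split_ifs with h3
  · have hW : (Pc x, Rc x t) ∈ Wd ρ := by
      rcases h3 with h3 | h3
      · right
        show ‖fr (Rc x t)‖ < ρ
        have : ‖fr (Rc x t)‖ < 4 * ε := h3
        linarith
      · left
        show ‖fr (Pc x)‖ < ρ
        have : ‖fr (Pc x)‖ < 4 * ε := h3
        linarith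
    rw [hL.far (Pc x) (Rc x t) hW h2 h1, Gl_H D hκ hρδ hρ hW hx ht ht']
  · rfl

/-- a point of the region in terms of `H` -/
theorem H_notRg {x : E3} {t : ℝ} (ht : 0 ≤ t) (ht' : t < 1)
    (h1 : 3 * ε ≤ ‖fr (Rc x t)‖) (h2 : 3 * ε ≤ ‖fr (Pc x)‖) :
    D.H (x, t) ∉ (toLS D hκ hε hε' hρ hρδ).Rg := by
  have hx : OffAx x := by
    have := fr_pos_notmem (by positivity) h2
    rwa [Pc_mem, not_not] at this
  have hc : ¬ OnC x t := not_onC_of x t (fr_pos_notmem (by positivity) h1)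
  rintro (⟨p, r, h3, hp, hr, h4⟩ | ⟨y, h4⟩ | ⟨q, y, h4⟩)
  · have h5 : (toLS D hκ hε hε' hρ hρδ).G (p, r) = D.H (xc p r, Int.fract (1 / 2 + r.im)) :=
      Gl_off D hp
    rw [h5] at h4
    obtain ⟨h6, m, h7⟩ := D.H_inj _ _ _ _ hx hc (off_xc hp) (fun h => hr (onC_iff.1 h)) ht ht'
      (Int.fract_nonneg _) (Int.fract_lt_one _) h4
    have h8 : fr (Pc x) = fr p := by
      have := congrArg (fun z => fr (Pc z)) h7
      simp only [fr_Pc_add, Pc_xc] at this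
      exact this.symm
    have h9 : fr (Rc x t) = fr r := by
      have h10 : fr (Rc (xc p r) t) = fr (Rc x t) := by rw [h7, fr_Rc_add]
      rw [← h10, Rc_xc]
      have f1 := Int.floor_add_fract (1 / 2 + r.im)
      rw [← h6] at f1
      have h11 : r = (((r.re : ℝ) : ℂ) + ((t - 1 / 2 : ℝ) : ℂ) * I) +
          (((0 : ℤ) : ℂ) + (⌊1 / 2 + r.im⌋ : ℂ) * I) := by
        apply Complex.ext
        · simp
        · simp only [Complex.add_im, Complex.ofReal_im, Complex.mul_im, Complex.ofReal_re,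
            Complex.I_im, Complex.I_re, Complex.intCast_im, Complex.intCast_re]
          linarith
      conv_rhs => rw [h11]
      rw [fr_add (GI_mk _ _)]
    rw [← h8, ← h9] at h3
    rcases h3 with h3 | h3 <;> linarith
  · exact D.disjc _ _ _ hx hc ht ht' h4.symm
  · exact D.disjb _ _ _ _ hx hc ht ht' h4.symm

theorem isOpen_near (ε : ℝ) : IsOpen {q : E3 × ℝ | ‖fr (Rc q.1 q.2)‖ < 4 * ε ∨ ‖fr (Pc q.1)‖ < 4 * ε} := by
  have hR : Continuous fun q : E3 × ℝ => Rc q.1 q.2 := by unfold Rc; fun_prop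
  have hP : Continuous fun q : E3 × ℝ => Pc q.1 := by unfold Pc; fun_prop
  have h1 : IsOpen {q : E3 × ℝ | ‖fr (Rc q.1 q.2)‖ < 4 * ε} :=
    isOpen_lt (fr_continuous.comp hR) continuous_const
  have h2 : IsOpen {q : E3 × ℝ | ‖fr (Pc q.1)‖ < 4 * ε} :=
    isOpen_lt (fr_continuous.comp hP) continuous_const
  exact h1.union h2

theorem isOpen_far (ε : ℝ) : IsOpen {q : E3 × ℝ | 3 * ε < ‖fr (Rc q.1 q.2)‖ ∧ 3 * ε < ‖fr (Pc q.1)‖} := by
  have hR : Continuous fun q : E3 × ℝ => Rc q.1 q.2 := by unfold Rc; fun_prop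
  have hP : Continuous fun q : E3 × ℝ => Pc q.1 := by unfold Pc; fun_prop
  have h1 : IsOpen {q : E3 × ℝ | 3 * ε < ‖fr (Rc q.1 q.2)‖} :=
    isOpen_lt continuous_const (fr_continuous.comp hR)
  have h2 : IsOpen {q : E3 × ℝ | 3 * ε < ‖fr (Pc q.1)‖} :=
    isOpen_lt continuous_const (fr_continuous.comp hP)
  exact h1.inter h2

/-- `(x, t) ↦ (Rc x t, Pc x)` -/
noncomputable def rpE : (E3 × ℝ) ≃ (ℂ × ℂ) where
  toFun q := (Rc q.1 q.2, Pc q.1)
  invFun w := (xc w.2 w.1, 1 / 2 + w.1.im)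
  left_inv q := by
    apply Prod.ext
    · exact xc_PR _ _
    · simp
  right_inv w := by
    apply Prod.ext
    · apply Complex.ext <;> simp
    · exact Pc_xc _ _

theorem rpE_smooth : ContDiff ℝ ∞ rpE := by
  have hc : ∀ i : Fin 3, ContDiff ℝ ∞ fun q : E3 × ℝ => q.1 i := fun i =>
    (FunBasic_coord i).comp contDiff_fst
  have hof : ∀ {f : E3 × ℝ → ℝ}, ContDiff ℝ ∞ f → ContDiff ℝ ∞ fun q => ((f q : ℝ) : ℂ) :=
    fun h => Complex.ofRealCLM.contDiff.comp h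
  exact ((hof ((hc 0).sub contDiff_const)).add ((hof (contDiff_snd.sub contDiff_const)).mul
    contDiff_const)).prodMk ((hof (hc 2)).add ((hof (hc 1)).mul contDiff_const))

theorem rpE_symm_smooth : ContDiff ℝ ∞ rpE.symm := by
  have h1 : ContDiff ℝ ∞ fun q : ℂ × ℂ => q.1.re := Complex.reCLM.contDiff.comp contDiff_fst
  have h2 : ContDiff ℝ ∞ fun q : ℂ × ℂ => q.1.im := Complex.imCLM.contDiff.comp contDiff_fst
  have h3 : ContDiff ℝ ∞ fun q : ℂ × ℂ => q.2.re := Complex.reCLM.contDiff.comp contDiff_snd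
  have h4 : ContDiff ℝ ∞ fun q : ℂ × ℂ => q.2.im := Complex.imCLM.contDiff.comp contDiff_snd
  exact (UNQ.contDiff_pt (contDiff_const.add h1) h4 h3).prodMk (contDiff_const.add h2)

theorem BB_loc (hL : SwapOf D hκ hε hε' hρ hρδ L') (h5 : 5 * ε < ρ) {x : E3} {t : ℝ}
    (ht : -(1 / 8) < t) (ht' : t < 9 / 8) (hx : ¬ IsLat x) (hT : ¬ OnT x t) :
    IsLocalDiffeomorphAt 𝓘(ℝ, E3 × ℝ) (𝓡 4) ∞ (BB D L') (x, t) := by
  by_cases hn : ‖fr (Rc x t)‖ < 4 * ε ∨ ‖fr (Pc x)‖ < 4 * ε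
  · have hW : (Rc x t, Pc x) ∈ Wd ρ := by
      rcases hn with h | h
      · left; show ‖fr (Rc x t)‖ < ρ; linarith
      · right; show ‖fr (Pc x)‖ < ρ; linarith
    have h1 : IsLocalDiffeomorphAt 𝓘(ℝ, E3 × ℝ) 𝓘(ℝ, ℂ × ℂ) ∞ rpE (x, t) :=
      ld_of_perm rpE_smooth rpE_symm_smooth _
    have h2 : IsLocalDiffeomorphAt 𝓘(ℝ, ℂ × ℂ) (𝓡 4) ∞ L'.G (rpE (x, t)) :=
      L'.G_loc _ _ hW (fun h => hT ((Rc_mem ht ht').1 h)) (fun h => hx (onCK_Rc.1 h))
    have h3 := IsLocalDiffeomorphAt.comp (hf := h1) (hg := h2) (𝓡 4) X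
    refine ld_congr h3 ?_
    filter_upwards [(isOpen_near ε).mem_nhds hn] with q hq
    exact if_pos hq
  · push Not at hn
    have hx' : OffAx x := by
      have := fr_pos_notmem (by positivity) hn.2
      rwa [Pc_mem, not_not] at this
    have h2 := D.H_loc x t ht ht' hx' (not_onC_of x t (fr_pos_notmem (by positivity) hn.1))
    refine ld_congr h2 ?_
    have htt : ∀ᶠ q : E3 × ℝ in 𝓝 (x, t), -(1 / 8) < q.2 ∧ q.2 < 9 / 8 := by
      have : ∀ᶠ t' : ℝ in 𝓝 t, -(1 / 8) < t' ∧ t' < 9 / 8 := Ioo_mem_nhds ht ht'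
      exact (continuous_snd.tendsto (x, t)).eventually this
    have hfar : (x, t) ∈ {q : E3 × ℝ | 3 * ε < ‖fr (Rc q.1 q.2)‖ ∧ 3 * ε < ‖fr (Pc q.1)‖} :=
      ⟨by show 3 * ε < ‖fr (Rc x t)‖; linarith [hn.1], by show 3 * ε < ‖fr (Pc x)‖; linarith [hn.2]⟩
    filter_upwards [(isOpen_far ε).mem_nhds hfar, htt] with q hq hq'
    exact BB_far hL h5 hq.1.le hq.2.le hq'.1 hq'.2

theorem BB_per (hε : 0 < ε) (h5 : 5 * ε < ρ) {x : E3} {t : ℝ}
    (m : Fin 3 → ℤ) (ht : -(1 / 8) < t) (ht' : t < 9 / 8) :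
    BB D L' (x + vec m, t) = BB D L' (x, t) := by
  unfold BB
  simp only [fr_Rc_add, fr_Pc_add]
  split_ifs with h1
  · have hW : (Rc x t, Pc x) ∈ Wd ρ := by
      rcases h1 with h | h
      · left; show ‖fr (Rc x t)‖ < ρ; linarith
      · right; show ‖fr (Pc x)‖ < ρ; linarith
    rw [Rc_add, Pc_add]
    exact L'.G_per _ _ _ _ hW (GI_int _) (GI_mk _ _)
  · push Not at h1
    have hx' : OffAx x := by
      have := fr_pos_notmem (by positivity) h1.2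
      rwa [Pc_mem, not_not] at this
    exact D.H_per x t m ht ht' hx'

theorem BB_mon (hκ : AxMono κ δ) (hε : 0 < ε) (hρδ : ρ ≤ δ) (hρ : ρ ≤ 1 / 8) (h5 : 5 * ε < ρ) {x : E3} {t : ℝ}
    (ht : -(1 / 8) < t) (ht' : t < 1 / 8) : BB D L' (κ x, t) = BB D L' (x, t + 1) := by
  have hR : ∀ y : E3, 3 / 8 ≤ ‖fr (Rc y t)‖ := by
    intro y
    apply fr_half (n := 0)
    rw [Rc_im, abs_le]
    push_cast
    constructor <;> linarith
  have hR' : ∀ y : E3, 3 / 8 ≤ ‖fr (Rc y (t + 1))‖ := by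
    intro y
    apply fr_half (n := 1)
    rw [Rc_im, abs_le]
    push_cast
    constructor <;> linarith
  by_cases h1 : ‖fr (Pc x)‖ < 4 * ε
  · have h2 : ‖fr (Pc (κ x))‖ < 4 * ε := by rwa [kappa_fr hκ (by linarith)]
    unfold BB
    rw [if_pos (Or.inr h2), if_pos (Or.inr h1)]
    show L'.G (Rc (κ x) t, Pc (κ x)) = L'.G (Rc x (t + 1), Pc x)
    obtain ⟨m, hm⟩ := kappa_near hκ (x := x) (by linarith)
    have hW : (Rc x t, Pc x) ∈ Wd ρ := by
      right; show ‖fr (Pc x)‖ < ρ; linarith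
    have e1 : Rc x (t + 1) = Rc x t + ((0 : ℤ) + ((1 : ℤ) : ℂ) * I) := by
      unfold Rc
      push_cast
      ring
    rw [hm, Rc_add, Pc_add, L'.G_per _ _ _ _ hW (GI_int _) (GI_mk _ _), e1]
    have := L'.G_per (Rc x t) (Pc x) _ 0 hW (GI_mk 0 1) GI_zero
    rw [add_zero] at this
    exact this.symm
  · have h2 : ¬ ‖fr (Pc (κ x))‖ < 4 * ε := by
      intro h
      apply h1
      rw [kappa_fr' hκ (by linarith)]
      exact h
    have h3 : OffAx x := by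
      have := fr_pos_notmem (c := 4 * ε) (by positivity) (not_lt.1 h1)
      rwa [Pc_mem, not_not] at this
    unfold BB
    rw [if_neg, if_neg]
    · exact D.H_mon x t ht ht' h3
    · rintro (h | h)
      · have := hR' x
        have h' : ‖fr (Rc x (t + 1))‖ < 4 * ε := h
        linarith
      · exact h1 h
    · rintro (h | h)
      · have := hR (κ x)
        have h' : ‖fr (Rc (κ x) t)‖ < 4 * ε := h
        linarith
      · exact h2 h

theorem Rg_mem (x : E3) (t : ℝ) (ht : -(1 / 8) < t) (ht' : t < 9 / 8) (hx : ¬ IsLat x)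
    (hT : ¬ OnT x t) (h : ‖fr (Rc x t)‖ < 3 * ε ∨ ‖fr (Pc x)‖ < 3 * ε) :
    L'.G (Rc x t, Pc x) ∈ L'.Rg :=
  Or.inl ⟨Rc x t, Pc x, h, fun h => hT ((Rc_mem ht ht').1 h), fun h => hx (onCK_Rc.1 h), rfl⟩

theorem BB_inj (hL : SwapOf D hκ hε hε' hρ hρδ L') (h5 : 5 * ε < ρ) {x y : E3} {s t : ℝ}
    (hx : ¬ IsLat x) (hs : ¬ OnT x s) (hy : ¬ IsLat y) (ht : ¬ OnT y t) (hs0 : 0 ≤ s) (hs1 : s < 1)
    (ht0 : 0 ≤ t) (ht1 : t < 1) (h : BB D L' (x, s) = BB D L' (y, t)) :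
    s = t ∧ ∃ m, y = x + vec m := by
  have hcase : ∀ (x : E3) (s : ℝ), 0 ≤ s → s < 1 → ((Rc x s, Pc x) ∈ Wd ρ ∧ BB D L' (x, s) = L'.G (Rc x s, Pc x) ∧
      (‖fr (Rc x s)‖ < 3 * ε ∨ ‖fr (Pc x)‖ < 3 * ε)) ∨ (3 * ε ≤ ‖fr (Rc x s)‖ ∧ 3 * ε ≤ ‖fr (Pc x)‖ ∧
      BB D L' (x, s) = D.H (x, s)) := by
    intro x s h1 h2
    by_cases h3 : ‖fr (Rc x s)‖ < 3 * ε ∨ ‖fr (Pc x)‖ < 3 * ε
    · left
      have hW : (Rc x s, Pc x) ∈ Wd ρ := by
        rcases h3 with h | h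
        · left; show ‖fr (Rc x s)‖ < ρ; linarith
        · right; show ‖fr (Pc x)‖ < ρ; linarith
      exact ⟨hW, BB_near hL hW (by linarith) (by linarith), h3⟩
    · right
      push Not at h3
      exact ⟨h3.1, h3.2, BB_far hL h5 h3.1 h3.2 (by linarith) (by linarith)⟩
  rcases hcase x s hs0 hs1 with ⟨a1, a2, a3⟩ | ⟨a1, a2, a3⟩
  · rcases hcase y t ht0 ht1 with ⟨b1, b2, b3⟩ | ⟨b1, b2, b3⟩
    · rw [a2, b2] at h
      obtain ⟨h1, h2⟩ := L'.G_inj _ _ _ _ a1 (fun h => hs ((Rc_mem (by linarith) (by linarith)).1 h))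
        (fun h => hx (onCK_Rc.1 h)) b1 (fun h => ht ((Rc_mem (by linarith) (by linarith)).1 h))
        (fun h => hy (onCK_Rc.1 h)) h
      rw [mem_GI, Complex.sub_re, Complex.sub_im, Rc_re, Rc_re, Rc_im, Rc_im] at h1
      rw [mem_GI, Complex.sub_re, Complex.sub_im, Pc_re, Pc_re, Pc_im, Pc_im] at h2
      obtain ⟨⟨m0, k0⟩, ⟨n, k1⟩⟩ := h1
      obtain ⟨⟨m2, k2⟩, ⟨m1, k3⟩⟩ := h2
      have hn : n = 0 := by
        have h6 : (n : ℝ) < 1 := by linarith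
        have h7 : (-1 : ℝ) < n := by linarith
        have h8 : n < 1 := by exact_mod_cast h6
        have h9 : -1 < n := by exact_mod_cast h7
        omega
      rw [hn] at k1
      push_cast at k1
      refine ⟨by linarith, ![m0, m1, m2], ?_⟩
      ext i; fin_cases i
      · show y 0 = x 0 + (m0 : ℝ)
        linarith
      · show y 1 = x 1 + (m1 : ℝ)
        linarith
      · show y 2 = x 2 + (m2 : ℝ)
        linarith
    · exfalso
      rw [a2, b3] at h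
      refine H_notRg (D := D) (hκ := hκ) (hε := hε) (hε' := hε') (hρ := hρ) (hρδ := hρδ) ht0 ht1
        b1 b2 ?_
      rw [← h, ← hL.rg]
      exact Rg_mem x s (by linarith) (by linarith) hx hs a3
  · have hx' : OffAx x := by
      have := fr_pos_notmem (by positivity) a2
      rwa [Pc_mem, not_not] at this
    rcases hcase y t ht0 ht1 with ⟨b1, b2, b3⟩ | ⟨b1, b2, b3⟩
    · exfalso
      rw [a3, b2] at h
      refine H_notRg (D := D) (hκ := hκ) (hε := hε) (hε' := hε') (hρ := hρ) (hρδ := hρδ) hs0 hs1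
        a1 a2 ?_
      rw [h, ← hL.rg]
      exact Rg_mem y t (by linarith) (by linarith) hy ht b3
    · have hy' : OffAx y := by
        have := fr_pos_notmem (by positivity) b2
        rwa [Pc_mem, not_not] at this
      rw [a3, b3] at h
      exact D.H_inj _ _ _ _ hx' (not_onC_of x s (fr_pos_notmem (by positivity) a1)) hy'
        (not_onC_of y t (fr_pos_notmem (by positivity) b1)) hs0 hs1 ht0 ht1 h

end

end Pool.Agent.TSQ
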