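import Pool.Agent.TSQ.PtoQ
import Pool.Agent.TSQ.Surg

/-!
# TSQ/ToSurg: from `PD κ ε k (-1)` to `Surg (sh lam * κ)`
-/

open scoped Manifold ContDiff Topology

namespace Pool.Agent.TSQ
open Pool.Agent.CSG Pool.Agent.TS

theorem surg_of_pd {X : Type*} [TopologicalSpace X] [ChartedSpace E4 X] (hsw : SwapStatement X)
    {κ : Equiv.Perm E3} {δ ε : ℝ} {k : ℤ} (hκ : AxMono κ δ) (hε : 0 < ε) (hε' : ε ≤ 1 / 1000)
    (hδ : 6 * ε ≤ δ) (D : PD κ ε k (-1) X) :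
    Nonempty (Surg (sh (fun y _ => lam y) * κ) X) := by
  obtain ⟨Q⟩ := qd_of_pd hsw D hκ hε hε' (by linarith)
  obtain ⟨S, -⟩ := surg_of_qd Q (Or.inr rfl) hε hε' hκ (by linarith)
  have hfun : (fun (y : ℝ) (_ : ℝ) => -((-1 : ℤ) : ℝ) * lam y) = fun y _ => lam y := by
    funext y _; push_cast; ring
  rw [hfun] at S
  exact ⟨S⟩

end Pool.Agent.TSQ
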